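import Pool.Agent.R662.WH.Stm

set_option autoImplicit false
set_option maxHeartbeats 400000

open MeasureTheory Set Filter Topology

namespace Pool.Agent.R662.WH

theorem w1_pos (γ r : ℝ) : 0 < w1 γ r := by
  unfold w1; positivity

theorem w1_contDiff (γ : ℝ) : ContDiff ℝ 1 (w1 γ) := by
  have h1 : ContDiff ℝ 1 (fun r : ℝ => 1 + r ^ 2) := by fun_prop
  have : ∀ r : ℝ, 1 + r ^ 2 ≠ 0 := fun r => by positivity
  exact h1.rpow_const_of_ne this

theorem w1_hasDerivAt (γ r : ℝ) : HasDerivAt (w1 γ) (2 * γ * r * w1 (γ - 1) r) r := by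
  have h1 : HasDerivAt (fun r : ℝ => 1 + r ^ 2) (2 * r) r := by
    have := (hasDerivAt_pow 2 r).const_add 1
    simpa using this
  have h2 := h1.rpow_const (p := γ) (Or.inl (by positivity))
  unfold w1
  convert h2 using 1
  ring

theorem w1_mul (γ r : ℝ) : w1 γ r = w1 (γ - 1) r * (1 + r ^ 2) := by
  unfold w1
  have : (0:ℝ) < 1 + r ^ 2 := by positivity
  rw [Real.rpow_sub_one this.ne']
  field_simp

theorem intg {F h : ℝ → ℝ} (hF : Continuous F) (hh : HasCompactSupport h)
    (h0 : ∀ x, x ∉ tsupport h → F x = 0) (s : Set ℝ) : IntegrableOn F s :=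
  (hF.integrable_of_hasCompactSupport (HasCompactSupport.intro hh h0)).integrableOn

theorem deriv_eq_zero {h : ℝ → ℝ} {x : ℝ} (hx : x ∉ tsupport h) : deriv h x = 0 := by
  by_contra hne
  exact hx (support_deriv_subset (f := h) hne)

theorem L1 : S_L1 := by
  intro n α hn h hh hc h0
  obtain ⟨m, rfl⟩ : ∃ m, n = m + 3 := ⟨n - 3, by omega⟩
  have e1 : m + 3 - 1 = m + 2 := by omega
  have e3 : m + 3 - 3 = m := by omega
  rw [e1, e3]
  have hcont := hh.continuous
  have hdc : Continuous (deriv h) := hh.continuous_deriv le_rfl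
  have hw : ∀ γ, Continuous (w1 γ) := fun γ => (w1_contDiff γ).continuous
  have hwα := hw α
  have hwα1 := hw (α - 1)
  have hz : ∀ x, x ∉ tsupport h → h x = 0 := fun x hx => image_eq_zero_of_notMem_tsupport hx
  have hz' : ∀ x, x ∉ tsupport h → deriv h x = 0 := fun x hx => deriv_eq_zero hx
  let H : ℝ → ℝ := fun r => r ^ (m + 1) * w1 α r * h r ^ 2
  have hH : ContDiff ℝ 1 H := by
    have h1 := w1_contDiff α
    have h2 : ContDiff ℝ 1 (fun r : ℝ => r ^ (m + 1)) := contDiff_id.pow _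
    exact (h2.mul h1).mul (hh.pow 2)
  have hHc : HasCompactSupport H := HasCompactSupport.intro hc (fun x hx => by simp [H, hz x hx])
  have hHd : ∀ r, deriv H r = (m + 1) * (r ^ m * w1 α r * h r ^ 2) +
      2 * α * (r ^ (m + 2) * w1 (α - 1) r * h r ^ 2) + 2 * (r ^ (m + 1) * w1 α r * (h r * deriv h r)) := by
    intro r
    have d1 : HasDerivAt (fun r : ℝ => r ^ (m + 1)) ((m + 1) * r ^ m) r := by
      have := hasDerivAt_pow (m + 1) r
      simpa using this
    have d2 := w1_hasDerivAt α r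
    have d3 : HasDerivAt h (deriv h r) r := (hh.differentiable one_ne_zero r).hasDerivAt
    have d4 : HasDerivAt (fun r => h r ^ 2) (2 * h r * deriv h r) r := by
      have := d3.fun_pow 2
      simpa using this
    have d5 := ((d1.mul d2).mul d4).deriv
    have d6 : deriv H r = ((m + 1) * r ^ m * w1 α r + r ^ (m + 1) * (2 * α * r * w1 (α - 1) r)) *
        h r ^ 2 + r ^ (m + 1) * w1 α r * (2 * h r * deriv h r) := d5
    rw [d6]; ring
  have hint := hHc.integral_Ioi_deriv_eq hH 0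
  have hH0 : H 0 = 0 := by simp [H]
  rw [hH0, neg_zero] at hint
  -- integrability
  have iP : IntegrableOn (fun r => r ^ m * w1 α r * h r ^ 2) (Ioi 0) :=
    intg (by fun_prop) hc (fun x hx => by simp [hz x hx]) _
  have iQ : IntegrableOn (fun r => r ^ (m + 2) * w1 (α - 1) r * h r ^ 2) (Ioi 0) :=
    intg (by fun_prop) hc (fun x hx => by simp [hz x hx]) _
  have iR : IntegrableOn (fun r => r ^ (m + 2) * w1 α r * deriv h r ^ 2) (Ioi 0) :=
    intg (by fun_prop) hc (fun x hx => by simp [hz' x hx]) _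
  have iH : IntegrableOn (deriv H) (Ioi 0) := by
    refine intg (hH.continuous_deriv le_rfl) hc (fun x hx => ?_) _
    rw [hHd, hz x hx, hz' x hx]; ring
  have i1 : IntegrableOn (fun r => ((m:ℝ) + 2) * (r ^ m * w1 α r * h r ^ 2)) (Ioi 0) := iP.const_mul _
  have i2 : IntegrableOn (fun r => 2 * α * (r ^ (m + 2) * w1 (α - 1) r * h r ^ 2)) (Ioi 0) :=
    iQ.const_mul _
  have i3 : IntegrableOn (fun r => ((m:ℝ) + 2) * (r ^ m * w1 α r * h r ^ 2) +
      2 * α * (r ^ (m + 2) * w1 (α - 1) r * h r ^ 2)) (Ioi 0) := Integrable.add i1 i2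
  have i4 : IntegrableOn (fun r => ((m:ℝ) + 2) * (r ^ m * w1 α r * h r ^ 2) +
      2 * α * (r ^ (m + 2) * w1 (α - 1) r * h r ^ 2) + r ^ (m + 2) * w1 α r * deriv h r ^ 2)
      (Ioi 0) := Integrable.add i3 iR
  have key : (0:ℝ) ≤ ∫ r in Ioi (0:ℝ), (((m:ℝ) + 2) * (r ^ m * w1 α r * h r ^ 2) +
      2 * α * (r ^ (m + 2) * w1 (α - 1) r * h r ^ 2) + r ^ (m + 2) * w1 α r * deriv h r ^ 2) := by
    refine hint.symm.le.trans (setIntegral_mono_on iH i4 measurableSet_Ioi ?_)
    intro r hr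
    have hr0 : (0:ℝ) < r := hr
    rw [hHd]
    have hp : 0 ≤ r ^ m * w1 α r * (r * deriv h r - h r) ^ 2 := by
      have := w1_pos α r; positivity
    have e : r ^ m * w1 α r * (r * deriv h r - h r) ^ 2 = r ^ (m + 2) * w1 α r * deriv h r ^ 2 -
      2 * (r ^ (m + 1) * w1 α r * (h r * deriv h r)) + r ^ m * w1 α r * h r ^ 2 := by ring
    rw [e] at hp
    linarith
  rw [integral_add i3 iR, integral_add i1 i2, integral_const_mul, integral_const_mul] at key
  push_cast
  have : ((m:ℝ) + 3 - 1) = m + 2 := by ring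
  rw [this]
  linarith

end Pool.Agent.R662.WH
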