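import Pool.Agent.R662.WH.L1

set_option autoImplicit false
set_option maxHeartbeats 400000

open MeasureTheory Set Filter Topology

namespace Pool.Agent.R662.WH

/-- pointwise inequality -/
theorem l2_pt (p r U L c₁ n α Φ f f' : ℝ) (hp : 0 < p) (hr : 0 < r) (hU : 0 < U) (hL : 0 < L)
    (hb : 0 ≤ r ^ 2 * (2 * α * n + n ^ 2 - (n + 2) * c₁ - L) +
      r ^ 4 * (c₁ * (2 * α - 2 + n - c₁) - L)) :
    0 ≤ p * (U * (1 + r ^ 2)) * f' ^ 2 / L + 2 * Φ * f' + p * U * f ^ 2 -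
      (2 * Φ * (p * U * f) * ((n + c₁ * r ^ 2) / (U * (1 + r ^ 2) * (p * r))) +
        Φ ^ 2 * ((-2 * α * r * (n + c₁ * r ^ 2) / (U * (1 + r ^ 2) ^ 2) +
          2 * c₁ * r / (U * (1 + r ^ 2))) / (p * r) -
            n * (n + c₁ * r ^ 2) / (U * (1 + r ^ 2) * (p * r ^ 2)))) := by
  have hy : 0 < 1 + r ^ 2 := by positivity
  have e : p * (U * (1 + r ^ 2)) * f' ^ 2 / L + 2 * Φ * f' + p * U * f ^ 2 -
      (2 * Φ * (p * U * f) * ((n + c₁ * r ^ 2) / (U * (1 + r ^ 2) * (p * r))) +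
        Φ ^ 2 * ((-2 * α * r * (n + c₁ * r ^ 2) / (U * (1 + r ^ 2) ^ 2) +
          2 * c₁ * r / (U * (1 + r ^ 2))) / (p * r) -
            n * (n + c₁ * r ^ 2) / (U * (1 + r ^ 2) * (p * r ^ 2)))) =
      (p * (U * (1 + r ^ 2)) * f' + L * Φ) ^ 2 / (L * (p * (U * (1 + r ^ 2)))) +
      (p * U * f - (n + c₁ * r ^ 2) / (r * (1 + r ^ 2)) * Φ) ^ 2 / (p * U) +
      Φ ^ 2 * (r ^ 2 * (2 * α * n + n ^ 2 - (n + 2) * c₁ - L) +
      r ^ 4 * (c₁ * (2 * α - 2 + n - c₁) - L)) / (U * (1 + r ^ 2) ^ 2 * (p * r ^ 2)) := by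
    field_simp
    ring
  rw [e]
  have h1 : 0 ≤ (p * (U * (1 + r ^ 2)) * f' + L * Φ) ^ 2 / (L * (p * (U * (1 + r ^ 2)))) := by
    positivity
  have h2 : 0 ≤ (p * U * f - (n + c₁ * r ^ 2) / (r * (1 + r ^ 2)) * Φ) ^ 2 / (p * U) := by
    positivity
  have h3 : 0 ≤ Φ ^ 2 * (r ^ 2 * (2 * α * n + n ^ 2 - (n + 2) * c₁ - L) +
      r ^ 4 * (c₁ * (2 * α - 2 + n - c₁) - L)) / (U * (1 + r ^ 2) ^ 2 * (p * r ^ 2)) := by
    apply div_nonneg (mul_nonneg (sq_nonneg _) hb)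
    positivity
  linarith

/-- the function `g` -/
noncomputable def gg (n : ℕ) (α c₁ r : ℝ) : ℝ := w1 (-α) r * ((n:ℝ) + c₁ * r ^ 2) / r ^ n

theorem w1_neg (α r : ℝ) : w1 (-α) r = 1 / (w1 (α - 1) r * (1 + r ^ 2)) := by
  rw [← w1_mul]
  unfold w1
  rw [Real.rpow_neg (by positivity), one_div]

theorem w1_neg' (α r : ℝ) : w1 (-α - 1) r = 1 / (w1 (α - 1) r * (1 + r ^ 2) ^ 2) := by
  have h1 := w1_mul (-α) r
  rw [w1_neg] at h1
  have h2 : (0:ℝ) < 1 + r ^ 2 := by positivity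
  have h3 := w1_pos (α - 1) r
  field_simp at h1 ⊢
  linarith

theorem gg_hasDerivAt (k : ℕ) (α c₁ r : ℝ) (hr : 0 < r) :
    HasDerivAt (gg (k + 1) α c₁)
      ((-2 * α * r * (((k + 1 : ℕ) : ℝ) + c₁ * r ^ 2) / (w1 (α - 1) r * (1 + r ^ 2) ^ 2) +
          2 * c₁ * r / (w1 (α - 1) r * (1 + r ^ 2))) / (r ^ k * r) -
            ((k + 1 : ℕ) : ℝ) * (((k + 1 : ℕ) : ℝ) + c₁ * r ^ 2) /
              (w1 (α - 1) r * (1 + r ^ 2) * (r ^ k * r ^ 2))) r := by
  have d1 := w1_hasDerivAt (-α) r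
  have d2 : HasDerivAt (fun r : ℝ => ((k + 1 : ℕ) : ℝ) + c₁ * r ^ 2) (c₁ * (2 * r)) r := by
    have := ((hasDerivAt_pow 2 r).const_mul c₁).const_add (((k + 1 : ℕ) : ℝ))
    simpa using this
  have d3 : HasDerivAt (fun r : ℝ => r ^ (k + 1)) (((k + 1 : ℕ) : ℝ) * r ^ k) r := by
    have := hasDerivAt_pow (k + 1) r
    simpa using this
  have d4 := (d1.mul d2).div d3 (by positivity)
  have hU := w1_pos (α - 1) r
  have hy : 0 < 1 + r ^ 2 := by positivity
  have hrk : 0 < r ^ k := by positivity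
  have hval : ((2 * (-α) * r * w1 (-α - 1) r * (((k + 1 : ℕ) : ℝ) + c₁ * r ^ 2) +
      w1 (-α) r * (c₁ * (2 * r))) * r ^ (k + 1) -
      w1 (-α) r * (((k + 1 : ℕ) : ℝ) + c₁ * r ^ 2) * (((k + 1 : ℕ) : ℝ) * r ^ k)) /
        (r ^ (k + 1)) ^ 2 =
      ((-2 * α * r * (((k + 1 : ℕ) : ℝ) + c₁ * r ^ 2) / (w1 (α - 1) r * (1 + r ^ 2) ^ 2) +
          2 * c₁ * r / (w1 (α - 1) r * (1 + r ^ 2))) / (r ^ k * r) -
            ((k + 1 : ℕ) : ℝ) * (((k + 1 : ℕ) : ℝ) + c₁ * r ^ 2) /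
              (w1 (α - 1) r * (1 + r ^ 2) * (r ^ k * r ^ 2))) := by
    rw [w1_neg, w1_neg']
    generalize ((k + 1 : ℕ) : ℝ) = N
    rw [pow_succ r k]
    generalize w1 (α - 1) r = U at *
    generalize r ^ k = p at *
    field_simp
  rw [← hval]
  exact d4

theorem l2_coef {n : ℕ} {α : ℝ} (hn : 3 ≤ n) (hα : α < -((n : ℝ) - 2) / 2) :
    0 < Lam n α ∧ ∃ c₁ : ℝ, ∀ r : ℝ,
      0 ≤ r ^ 2 * (2 * α * n + (n:ℝ) ^ 2 - ((n:ℝ) + 2) * c₁ - Lam n α) +
      r ^ 4 * (c₁ * (2 * α - 2 + n - c₁) - Lam n α) := by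
  have hn' : (3:ℝ) ≤ n := by exact_mod_cast hn
  by_cases hc : -((n : ℝ) + 2) / 2 ≤ α
  · have hL : Lam n α = ((n : ℝ) - 2 + 2 * α) ^ 2 / 4 := by unfold Lam; rw [if_pos hc]
    rw [hL]
    constructor
    · have : (n:ℝ) - 2 + 2 * α < 0 := by linarith
      have := pow_pos (neg_pos.2 this) 2
      nlinarith
    · refine ⟨-(2 - 2 * α - n) / 2, fun r => ?_⟩
      have hT0 : 0 < 2 - 2 * α - n := by linarith
      have hT4 : 2 - 2 * α - n ≤ 4 := by linarith
      have e2 : (-(2 - 2 * α - n) / 2) * (2 * α - 2 + n - (-(2 - 2 * α - n) / 2)) -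
        ((n : ℝ) - 2 + 2 * α) ^ 2 / 4 = 0 := by ring
      have e1 : 2 * α * n + (n:ℝ) ^ 2 - ((n:ℝ) + 2) * (-(2 - 2 * α - n) / 2) -
          ((n : ℝ) - 2 + 2 * α) ^ 2 / 4 =
          2 * n - n * (2 - 2 * α - n) / 2 + (2 - 2 * α - n) - (2 - 2 * α - n) ^ 2 / 4 := by ring
      rw [e2, e1, mul_zero, add_zero]
      apply mul_nonneg (sq_nonneg _)
      nlinarith
  · have hL : Lam n α = -4 * α - 2 * n := by unfold Lam; rw [if_neg hc]
    rw [hL]
    push Not at hc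
    constructor
    · linarith
    · refine ⟨(n:ℝ) + 2 * α, fun r => ?_⟩
      have e2 : ((n:ℝ) + 2 * α) * (2 * α - 2 + n - ((n:ℝ) + 2 * α)) - (-4 * α - 2 * n) = 0 := by ring
      have e1 : 2 * α * n + (n:ℝ) ^ 2 - ((n:ℝ) + 2) * ((n:ℝ) + 2 * α) - (-4 * α - 2 * n) = 0 := by
        ring
      rw [e1, e2]
      simp

theorem ioi_eq {F : ℝ → ℝ} {R : ℝ} (hR : 0 ≤ R) (h0 : ∀ r, R ≤ r → F r = 0) :
    ∫ r in Ioi (0:ℝ), F r = ∫ r in (0:ℝ)..R, F r := by
  rw [intervalIntegral.integral_of_le hR]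
  apply setIntegral_eq_of_subset_of_forall_diff_eq_zero measurableSet_Ioi
  · exact Ioc_subset_Ioi_self
  · rintro x ⟨hx1, hx2⟩
    apply h0
    by_contra hcon
    push Not at hcon
    exact hx2 ⟨hx1, hcon.le⟩

theorem L2 : S_L2 := by
  intro n α hn hα f hf hc hmean
  obtain ⟨hL, c₁, hb⟩ := l2_coef hn hα
  obtain ⟨k, rfl⟩ : ∃ k, n = k + 1 := ⟨n - 1, by omega⟩
  simp only [Nat.add_sub_cancel] at hmean ⊢
  have hcont := hf.continuous
  have hdc : Continuous (deriv f) := hf.continuous_deriv le_rfl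
  have hwα : Continuous (w1 α) := (w1_contDiff α).continuous
  have hwα1 : Continuous (w1 (α - 1)) := (w1_contDiff (α - 1)).continuous
  have hwαn : Continuous (w1 (-α)) := (w1_contDiff (-α)).continuous
  set L := Lam (k + 1) α with hLdef
  -- the support
  obtain ⟨R, hR0, hR⟩ : ∃ R : ℝ, 0 < R ∧ ∀ r, R ≤ r → f r = 0 ∧ deriv f r = 0 := by
    obtain ⟨R₀, hR₀⟩ := hc.isCompact.isBounded.subset_closedBall 0
    refine ⟨max R₀ 0 + 1, by positivity, fun r hr => ?_⟩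
    have hnot : r ∉ tsupport f := by
      intro hmem
      have := hR₀ hmem
      rw [Metric.mem_closedBall, Real.dist_eq, sub_zero] at this
      have h1 := le_abs_self r
      have h2 := le_max_left R₀ 0
      linarith
    exact ⟨image_eq_zero_of_notMem_tsupport hnot, deriv_eq_zero hnot⟩
  let G0 : ℝ → ℝ := fun s => s ^ k * w1 (α - 1) s * f s
  have hG0 : Continuous G0 := by simp only [G0]; fun_prop
  let Φ : ℝ → ℝ := fun r => ∫ s in (0:ℝ)..r, G0 s
  have hΦd : ∀ r, HasDerivAt Φ (G0 r) r := fun r =>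
    intervalIntegral.integral_hasDerivAt_right (hG0.intervalIntegrable _ _)
      (hG0.stronglyMeasurableAtFilter _ _) hG0.continuousAt
  have hΦc : Continuous Φ := continuous_iff_continuousAt.2 fun r => (hΦd r).continuousAt
  have hΦ0 : Φ 0 = 0 := by simp [Φ]
  have hΦR : Φ R = 0 := by
    have := ioi_eq (F := G0) hR0.le (fun r hr => by simp [G0, (hR r hr).1])
    simp only [Φ]
    rw [← this]
    exact hmean
  -- bound for `Φ`
  obtain ⟨C₀, hC₀⟩ : ∃ C₀ : ℝ, ∀ s, ‖w1 (α - 1) s * f s‖ ≤ C₀ := by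
    have h1 : Continuous (fun s => w1 (α - 1) s * f s) := by fun_prop
    have h2 : HasCompactSupport (fun s => w1 (α - 1) s * f s) := hc.mul_left
    exact h1.bounded_above_of_compact_support h2
  have hΦb : ∀ r, 0 < r → |Φ r| ≤ C₀ * r ^ (k + 1) := by
    intro r hr
    have h1 : ∀ s ∈ Set.uIoc 0 r, ‖G0 s‖ ≤ C₀ * r ^ k := by
      intro s hs
      rw [uIoc_of_le hr.le] at hs
      simp only [G0]
      rw [mul_assoc, norm_mul, mul_comm]
      have h2 : ‖s ^ k‖ ≤ r ^ k := by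
        rw [norm_pow, Real.norm_eq_abs, abs_of_pos hs.1]
        exact pow_le_pow_left₀ hs.1.le hs.2 k
      have h3 : 0 ≤ C₀ := (norm_nonneg _).trans (hC₀ s)
      exact mul_le_mul (hC₀ s) h2 (norm_nonneg _) h3
    have h2 := intervalIntegral.norm_integral_le_of_norm_le_const h1
    rw [sub_zero, abs_of_pos hr, Real.norm_eq_abs] at h2
    calc |Φ r| ≤ C₀ * r ^ k * r := h2
      _ = _ := by ring
  -- the integrands
  let J : ℝ → ℝ := fun r => r ^ k * w1 (α - 1) r * f r ^ 2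
  let K : ℝ → ℝ := fun r => r ^ k * w1 α r * deriv f r ^ 2
  have hJ : Continuous J := by simp only [J]; fun_prop
  have hK : Continuous K := by simp only [K]; fun_prop
  have hJK : Continuous (fun r => J r - K r / L) := by fun_prop
  let Fn : ℝ → ℝ := fun r => (∫ s in (0:ℝ)..r, (J s - K s / L)) -
    (2 * (Φ r * f r) - Φ r ^ 2 * gg (k + 1) α c₁ r)
  have hFd : ∀ r, 0 < r → ∃ d ≤ 0, HasDerivAt Fn d r := by
    intro r hr
    have a1 : HasDerivAt (fun r => ∫ s in (0:ℝ)..r, (J s - K s / L)) (J r - K r / L) r :=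
      intervalIntegral.integral_hasDerivAt_right (hJK.intervalIntegrable _ _)
        (hJK.stronglyMeasurableAtFilter _ _) hJK.continuousAt
    have a2 : HasDerivAt f (deriv f r) r := (hf.differentiable one_ne_zero r).hasDerivAt
    have a3 := ((hΦd r).mul a2).const_mul 2
    have a4 : HasDerivAt (fun r => Φ r ^ 2) (2 * Φ r * G0 r) r := by
      simpa using (hΦd r).fun_pow 2
    have a5 := a4.mul (gg_hasDerivAt k α c₁ r hr)
    have a6 := a1.sub (a3.sub a5)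
    refine ⟨_, ?_, a6⟩
    have hU := w1_pos (α - 1) r
    have hpt := l2_pt (r ^ k) r (w1 (α - 1) r) L c₁ ((k + 1 : ℕ) : ℝ) α (Φ r) (f r) (deriv f r)
      (by positivity) hr hU hL (hb r)
    have hgg : gg (k + 1) α c₁ r = (((k + 1 : ℕ) : ℝ) + c₁ * r ^ 2) /
        (w1 (α - 1) r * (1 + r ^ 2) * (r ^ k * r)) := by
      unfold gg
      rw [w1_neg, pow_succ r k]
      have : 0 < 1 + r ^ 2 := by positivity
      have : 0 < r ^ k := by positivity
      field_simp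
    rw [hgg]
    simp only [J, K, G0]
    rw [w1_mul α r]
    nlinarith [hpt]
  -- monotonicity
  have hmono : ∀ ε, 0 < ε → ε ≤ R → Fn R ≤ Fn ε := by
    intro ε hε hεR
    have hanti : AntitoneOn Fn (Icc ε R) := by
      apply antitoneOn_of_deriv_nonpos (convex_Icc ε R)
      · intro r hr
        obtain ⟨d, -, hd⟩ := hFd r (lt_of_lt_of_le hε hr.1)
        exact hd.continuousAt.continuousWithinAt
      · intro r hr
        rw [interior_Icc] at hr
        obtain ⟨d, -, hd⟩ := hFd r (hε.trans hr.1)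
        exact hd.differentiableAt.differentiableWithinAt
      · intro r hr
        rw [interior_Icc] at hr
        obtain ⟨d, hd0, hd⟩ := hFd r (hε.trans hr.1)
        rw [hd.deriv]; exact hd0
    exact hanti ⟨le_rfl, hεR⟩ ⟨hεR, le_rfl⟩ hεR
  -- the limit at zero
  have hlim : Tendsto Fn (𝓝[>] 0) (𝓝 0) := by
    have b1 : Tendsto (fun r => ∫ s in (0:ℝ)..r, (J s - K s / L)) (𝓝[>] 0) (𝓝 0) := by
      have h1 : Continuous (fun r => ∫ s in (0:ℝ)..r, (J s - K s / L)) :=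
        intervalIntegral.continuous_primitive (fun a b => hJK.intervalIntegrable a b) 0
      have h2 := h1.tendsto 0
      simp only [intervalIntegral.integral_same] at h2
      exact h2.mono_left nhdsWithin_le_nhds
    have b2 : Tendsto (fun r => 2 * (Φ r * f r)) (𝓝[>] 0) (𝓝 0) := by
      have h1 : Continuous (fun r => 2 * (Φ r * f r)) := by fun_prop
      have h2 := h1.tendsto 0
      rw [hΦ0] at h2
      simp only [zero_mul, mul_zero] at h2
      exact h2.mono_left nhdsWithin_le_nhds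
    have b3 : Tendsto (fun r => Φ r ^ 2 * gg (k + 1) α c₁ r) (𝓝[>] 0) (𝓝 0) := by
      have h1 : Continuous (fun r => C₀ * (|Φ r| * |w1 (-α) r * (((k + 1 : ℕ) : ℝ) + c₁ * r ^ 2)|)) := by
        fun_prop
      have h2 := h1.tendsto 0
      rw [hΦ0] at h2
      simp only [abs_zero, zero_mul, mul_zero] at h2
      refine squeeze_zero_norm' ?_ (h2.mono_left nhdsWithin_le_nhds)
      filter_upwards [self_mem_nhdsWithin] with r hr
      have hr0 : 0 < r := hr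
      have hpow : 0 < r ^ (k + 1) := by positivity
      have h3 := hΦb r hr0
      unfold gg
      rw [norm_mul, norm_div, Real.norm_eq_abs, Real.norm_eq_abs, Real.norm_eq_abs,
        abs_of_pos hpow, abs_pow, sq]
      have h4 : |Φ r| / r ^ (k + 1) ≤ C₀ := by rw [div_le_iff₀ hpow]; exact h3
      calc |Φ r| * |Φ r| * (|w1 (-α) r * (((k + 1 : ℕ) : ℝ) + c₁ * r ^ 2)| / r ^ (k + 1))
          = (|Φ r| / r ^ (k + 1)) * (|Φ r| * |w1 (-α) r * (((k + 1 : ℕ) : ℝ) + c₁ * r ^ 2)|) := by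
            ring
        _ ≤ C₀ * (|Φ r| * |w1 (-α) r * (((k + 1 : ℕ) : ℝ) + c₁ * r ^ 2)|) :=
            mul_le_mul_of_nonneg_right h4 (by positivity)
    have b4 := b1.sub (b2.sub b3)
    simpa using b4
  have hFR : Fn R ≤ 0 := by
    apply ge_of_tendsto hlim
    have : ∀ᶠ ε in 𝓝[>] (0:ℝ), ε ≤ R := by
      have := Ioc_mem_nhdsGT hR0
      filter_upwards [this] with ε hε
      exact hε.2
    filter_upwards [self_mem_nhdsWithin, this] with ε h1 h2
    exact hmono ε h1 h2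
  -- conclusion
  have hFR' : Fn R = (∫ s in (0:ℝ)..R, J s) - (∫ s in (0:ℝ)..R, K s) / L := by
    simp only [Fn]
    rw [hΦR, intervalIntegral.integral_sub (hJ.intervalIntegrable _ _)
      ((hK.div_const L).intervalIntegrable _ _), intervalIntegral.integral_div]
    ring
  rw [hFR'] at hFR
  have eJ : ∫ r in Ioi (0:ℝ), r ^ k * w1 (α - 1) r * f r ^ 2 = ∫ s in (0:ℝ)..R, J s :=
    ioi_eq hR0.le (fun r hr => by simp [(hR r hr).1])
  have eK : ∫ r in Ioi (0:ℝ), r ^ k * w1 α r * deriv f r ^ 2 = ∫ s in (0:ℝ)..R, K s :=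
    ioi_eq hR0.le (fun r hr => by simp [(hR r hr).2])
  rw [eJ, eK]
  have h5 : (∫ s in (0:ℝ)..R, J s) ≤ (∫ s in (0:ℝ)..R, K s) / L := by linarith
  rw [le_div_iff₀ hL] at h5
  linarith

end Pool.Agent.R662.WH
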