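import Mathlib

/-!
# L3, part b: one dimensional limits
-/

set_option autoImplicit false

open MeasureTheory Set Filter Topology Metric
open scoped ContDiff

namespace Pool.Agent.R662.WH

noncomputable section

/-- Gaussian moments -/
def gm (m : ℕ) : ℝ := ∫ r in Ioi (0 : ℝ), r ^ m * Real.exp (-(1 / 2) * r ^ 2)

lemma gm_integrable (m : ℕ) :
    IntegrableOn (fun r : ℝ => r ^ m * Real.exp (-(1 / 2) * r ^ 2)) (Ioi 0) := by
  have h := integrableOn_rpow_mul_exp_neg_mul_sq (b := 1 / 2) (by norm_num) (s := (m : ℝ))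
    (by have : (0 : ℝ) ≤ m := by positivity
        linarith)
  simpa only [Real.rpow_natCast] using h

lemma gm_formula (m : ℕ) : gm m = (1 / 2 : ℝ) ^ (-((m : ℝ) + 1) / 2) * (1 / 2) *
    Real.Gamma (((m : ℝ) + 1) / 2) := by
  have h := integral_rpow_mul_exp_neg_mul_rpow (p := 2) (q := (m : ℝ)) (b := 1 / 2) (by norm_num)
    (by have : (0 : ℝ) ≤ m := by positivity
        linarith) (by norm_num)
  rw [← h, gm]
  refine setIntegral_congr_fun measurableSet_Ioi fun x _ => ?_
  simp only [Real.rpow_natCast, Real.rpow_two]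

lemma gm_pos (m : ℕ) : 0 < gm m := by
  rw [gm_formula]
  have : 0 < Real.Gamma (((m : ℝ) + 1) / 2) := Real.Gamma_pos_of_pos (by positivity)
  positivity

lemma gm_succ (m : ℕ) : gm (m + 2) = ((m : ℝ) + 1) * gm m := by
  rw [gm_formula, gm_formula]
  have h1 : (((m + 2 : ℕ) : ℝ) + 1) / 2 = ((m : ℝ) + 1) / 2 + 1 := by push_cast; ring
  have h2 : -(((m + 2 : ℕ) : ℝ) + 1) / 2 = -((m : ℝ) + 1) / 2 + (-1) := by push_cast; ring
  rw [h1, h2, Real.Gamma_add_one (by positivity), Real.rpow_add (by norm_num), Real.rpow_neg_one]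
  ring

/-- truncated Gaussian weight -/
def gw (k r : ℝ) : ℝ := if r ≤ k then Real.exp (-(1 / 2) * r ^ 2) else 0

lemma gw_nonneg (k r : ℝ) : 0 ≤ gw k r := by
  unfold gw; split_ifs <;> positivity

lemma gw_le (k r : ℝ) : gw k r ≤ Real.exp (-(1 / 2) * r ^ 2) := by
  unfold gw; split_ifs
  · exact le_rfl
  · positivity

lemma gw_measurable (k : ℝ) : Measurable (gw k) := by
  unfold gw
  exact Measurable.ite measurableSet_Iic (by fun_prop) measurable_const

lemma gw_limit (m : ℕ) {q : ℕ → ℝ → ℝ} {q' : ℝ → ℝ} {C : ℝ} (hm : ∀ k, Measurable (q k))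
    (hb : ∀ k, ∀ r : ℝ, 0 < r → |q k r| ≤ C * (1 + r ^ 2))
    (hl : ∀ r : ℝ, 0 < r → Tendsto (fun k => q k r) atTop (𝓝 (q' r))) :
    Tendsto (fun k : ℕ => ∫ r in Ioi (0 : ℝ), r ^ m * (q k r * gw k r)) atTop
      (𝓝 (∫ r in Ioi (0 : ℝ), r ^ m * (q' r * Real.exp (-(1 / 2) * r ^ 2)))) := by
  refine tendsto_integral_of_dominated_convergence
    (fun r => C * (r ^ m * Real.exp (-(1 / 2) * r ^ 2) +
      r ^ (m + 2) * Real.exp (-(1 / 2) * r ^ 2))) ?_ ?_ ?_ ?_
  · intro k
    exact ((measurable_id.pow_const m).mul ((hm k).mul (gw_measurable k))).aestronglyMeasurable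
  · exact ((gm_integrable m).add (gm_integrable (m + 2))).const_mul C
  · intro k
    refine (ae_restrict_mem measurableSet_Ioi).mono fun r hr => ?_
    have hr0 : 0 < r := hr
    rw [Real.norm_eq_abs, abs_mul, abs_mul, abs_of_nonneg (gw_nonneg _ _),
      abs_of_pos (pow_pos hr0 m)]
    have h1 := hb k r hr0
    have h2 := gw_le k r
    have h3 := gw_nonneg k r
    have h4 : 0 < r ^ m := pow_pos hr0 m
    calc r ^ m * (|q k r| * gw k r) ≤ r ^ m * (C * (1 + r ^ 2) * Real.exp (-(1 / 2) * r ^ 2)) := by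
          refine mul_le_mul_of_nonneg_left ?_ h4.le
          exact mul_le_mul h1 h2 h3 ((abs_nonneg _).trans h1)
      _ = _ := by ring
  · refine (ae_restrict_mem measurableSet_Ioi).mono fun r hr => ?_
    refine Tendsto.const_mul _ ((hl r hr).mul ?_)
    refine tendsto_const_nhds.congr' ?_
    filter_upwards [eventually_ge_atTop ⌈r⌉₊] with k hk
    have : r ≤ k := (Nat.le_ceil r).trans (by exact_mod_cast hk)
    rw [gw, if_pos this]

/-- the cut-off -/
def chi (k : ℕ) (r : ℝ) : ℝ := Real.smoothTransition (((k : ℝ) + 1) * r - 1)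

/-- the radial profile -/
def rho (k : ℕ) (r : ℝ) : ℝ := r * chi k r

lemma chi_contDiff (k : ℕ) : ContDiff ℝ ∞ (chi k) := by
  unfold chi
  exact (Real.smoothTransition.contDiff (n := ⊤)).comp (by fun_prop)

lemma rho_contDiff (k : ℕ) : ContDiff ℝ ∞ (rho k) := contDiff_id.mul (chi_contDiff k)

lemma chi_zero (k : ℕ) {r : ℝ} (hr : r ≤ 1 / ((k : ℝ) + 1)) : chi k r = 0 := by
  unfold chi
  apply Real.smoothTransition.zero_of_nonpos
  have h : 0 < (k : ℝ) + 1 := by positivity
  rw [le_div_iff₀ h] at hr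
  linarith

lemma chi_one (k : ℕ) {r : ℝ} (hr : 2 / ((k : ℝ) + 1) ≤ r) : chi k r = 1 := by
  unfold chi
  apply Real.smoothTransition.one_of_one_le
  have h : 0 < (k : ℝ) + 1 := by positivity
  rw [div_le_iff₀ h] at hr
  linarith

lemma chi_nonneg (k : ℕ) (r : ℝ) : 0 ≤ chi k r := Real.smoothTransition.nonneg _

lemma chi_le_one (k : ℕ) (r : ℝ) : chi k r ≤ 1 := Real.smoothTransition.le_one _

lemma deriv_st_bound : ∃ C : ℝ, 0 ≤ C ∧ ∀ x, |deriv Real.smoothTransition x| ≤ C := by
  have hc : Continuous (deriv Real.smoothTransition) :=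
    (Real.smoothTransition.contDiff (n := ⊤)).continuous_deriv (by simp)
  obtain ⟨C, hC⟩ := (isCompact_Icc (a := (0 : ℝ)) (b := 1)).exists_bound_of_continuousOn
    hc.continuousOn
  refine ⟨|C|, abs_nonneg _, fun x => ?_⟩
  by_cases hx : x ∈ Icc (0 : ℝ) 1
  · exact (hC x hx).trans (le_abs_self _)
  · have h0 : deriv Real.smoothTransition x = 0 := by
      rw [mem_Icc, not_and_or, not_le, not_le] at hx
      rcases hx with hx | hx
      · have : Real.smoothTransition =ᶠ[𝓝 x] fun _ => 0 := by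
          filter_upwards [Iio_mem_nhds hx] with y hy
          exact Real.smoothTransition.zero_of_nonpos hy.le
        rw [this.deriv_eq, deriv_const]
      · have : Real.smoothTransition =ᶠ[𝓝 x] fun _ => 1 := by
          filter_upwards [Ioi_mem_nhds hx] with y hy
          exact Real.smoothTransition.one_of_one_le hy.le
        rw [this.deriv_eq, deriv_const]
    rw [h0, abs_zero]
    exact abs_nonneg _

lemma hasDerivAt_rho (k : ℕ) (r : ℝ) :
    HasDerivAt (rho k) (chi k r + r * (((k : ℝ) + 1) *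
      deriv Real.smoothTransition (((k : ℝ) + 1) * r - 1))) r := by
  have h1 : HasDerivAt Real.smoothTransition
      (deriv Real.smoothTransition (((k : ℝ) + 1) * r - 1)) (((k : ℝ) + 1) * r - 1) :=
    ((Real.smoothTransition.contDiff (n := ⊤)).differentiable (by simp) _).hasDerivAt
  have h2 : HasDerivAt (fun r : ℝ => ((k : ℝ) + 1) * r - 1) ((k : ℝ) + 1) r := by
    simpa using ((hasDerivAt_id r).const_mul ((k : ℝ) + 1)).sub_const 1
  have h3 := HasDerivAt.comp r h1 h2
  have h4 := (hasDerivAt_id r).mul h3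
  refine h4.congr_deriv ?_
  simp only [Function.comp, id, one_mul, chi]
  ring

lemma deriv_rho_zero (k : ℕ) {r : ℝ} (hr : r ≤ 1 / ((k : ℝ) + 1)) : deriv (rho k) r = 0 := by
  have h : 0 < (k : ℝ) + 1 := by positivity
  rw [le_div_iff₀ h] at hr
  rcases hr.lt_or_eq with hr | hr
  · have : rho k =ᶠ[𝓝 r] fun _ => 0 := by
      have h2 : r < 1 / ((k : ℝ) + 1) := by rw [lt_div_iff₀ h]; exact hr
      filter_upwards [Iio_mem_nhds h2] with y hy
      rw [rho, chi_zero k hy.le, mul_zero]
    rw [this.deriv_eq, deriv_const]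
  · have hc : Continuous (deriv Real.smoothTransition) :=
      (Real.smoothTransition.contDiff (n := ⊤)).continuous_deriv (by simp)
    have h1 : deriv Real.smoothTransition 0 = 0 := by
      have e1 : Tendsto (deriv Real.smoothTransition) (𝓝[<] 0) (𝓝 (deriv Real.smoothTransition 0)) :=
        (hc.tendsto 0).mono_left nhdsWithin_le_nhds
      have e2 : Tendsto (deriv Real.smoothTransition) (𝓝[<] 0) (𝓝 0) := by
        refine tendsto_const_nhds.congr' ?_
        filter_upwards [self_mem_nhdsWithin] with y hy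
        have : Real.smoothTransition =ᶠ[𝓝 y] fun _ => 0 := by
          filter_upwards [Iio_mem_nhds (show y < 0 from hy)] with z hz
          exact Real.smoothTransition.zero_of_nonpos hz.le
        rw [this.deriv_eq, deriv_const]
      exact tendsto_nhds_unique e1 e2
    rw [(hasDerivAt_rho k r).deriv, show ((k : ℝ) + 1) * r - 1 = 0 by linarith, h1,
      chi_zero k (by rw [le_div_iff₀ h]; exact hr.le)]
    ring

lemma deriv_rho_one (k : ℕ) {r : ℝ} (hr : 2 / ((k : ℝ) + 1) < r) : deriv (rho k) r = 1 := by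
  have : rho k =ᶠ[𝓝 r] fun y => y := by
    filter_upwards [Ioi_mem_nhds hr] with y hy
    rw [rho, chi_one k (le_of_lt hy), mul_one]
  rw [this.deriv_eq, deriv_id'']

lemma deriv_rho_bound : ∃ C : ℝ, 0 ≤ C ∧ ∀ k r, 0 < r → |deriv (rho k) r| ≤ C := by
  obtain ⟨C, hC0, hC⟩ := deriv_st_bound
  refine ⟨1 + 2 * C, by positivity, fun k r hr => ?_⟩
  have h : 0 < (k : ℝ) + 1 := by positivity
  by_cases h1 : 2 / ((k : ℝ) + 1) < r
  · rw [deriv_rho_one k h1, abs_one]; linarith
  · rw [not_lt, le_div_iff₀ h] at h1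
    rw [(hasDerivAt_rho k r).deriv]
    have e1 : |chi k r| ≤ 1 := by rw [abs_of_nonneg (chi_nonneg k r)]; exact chi_le_one k r
    have e2 : |r * (((k : ℝ) + 1) * deriv Real.smoothTransition (((k : ℝ) + 1) * r - 1))| ≤ 2 * C := by
      rw [← mul_assoc, abs_mul, abs_of_pos (mul_pos hr h)]
      exact mul_le_mul h1 (hC _) (abs_nonneg _) (by norm_num)
    exact (abs_add_le _ _).trans (add_le_add e1 e2)

lemma eventually_big {r : ℝ} (hr : 0 < r) : ∀ᶠ k : ℕ in atTop, 2 / ((k : ℝ) + 1) < r := by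
  have h : Tendsto (fun k : ℕ => 2 / ((k : ℝ) + 1)) atTop (𝓝 0) :=
    tendsto_const_nhds.div_atTop (tendsto_natCast_atTop_atTop.atTop_add tendsto_const_nhds)
  exact h.eventually (gt_mem_nhds hr)

lemma lim_b (m : ℕ) : Tendsto (fun k : ℕ => ∫ r in Ioi (0 : ℝ), r ^ m * (rho k r ^ 2 * gw k r))
    atTop (𝓝 (gm (m + 2))) := by
  have h := gw_limit m (q := fun k r => rho k r ^ 2) (q' := fun r => r ^ 2) (C := 1)
    (fun k => ((rho_contDiff k).continuous.pow 2).measurable) ?_ ?_
  · refine h.trans_eq ?_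
    · congr 1
      unfold gm
      refine setIntegral_congr_fun measurableSet_Ioi fun x _ => ?_
      ring
  · intro k r hr
    rw [rho, mul_pow, abs_of_nonneg (by positivity), one_mul]
    have : chi k r ^ 2 ≤ 1 := pow_le_one₀ (chi_nonneg k r) (chi_le_one k r)
    nlinarith [sq_nonneg r]
  · intro r hr
    refine tendsto_const_nhds.congr' ?_
    filter_upwards [eventually_big hr] with k hk
    rw [rho, chi_one k hk.le, mul_one]

lemma lim_a (m : ℕ) : Tendsto (fun k : ℕ => ∫ r in Ioi (0 : ℝ), r ^ m * ((rho k r / r) ^ 2 * gw k r))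
    atTop (𝓝 (gm m)) := by
  have h := gw_limit m (q := fun k r => (rho k r / r) ^ 2) (q' := fun r => 1) (C := 1)
    (fun k => ((rho_contDiff k).continuous.measurable.div measurable_id).pow_const 2) ?_ ?_
  · refine h.trans_eq ?_
    · congr 1
      unfold gm
      refine setIntegral_congr_fun measurableSet_Ioi fun x _ => ?_
      ring
  · intro k r hr
    rw [rho, mul_div_cancel_left₀ _ hr.ne', abs_of_nonneg (by positivity), one_mul]
    have : chi k r ^ 2 ≤ 1 := pow_le_one₀ (chi_nonneg k r) (chi_le_one k r)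
    nlinarith [sq_nonneg r]
  · intro r hr
    refine tendsto_const_nhds.congr' ?_
    filter_upwards [eventually_big hr] with k hk
    rw [rho, chi_one k hk.le, mul_one, div_self hr.ne', one_pow]

lemma lim_a' (m : ℕ) :
    Tendsto (fun k : ℕ => ∫ r in Ioi (0 : ℝ), r ^ m * (deriv (rho k) r ^ 2 * gw k r))
    atTop (𝓝 (gm m)) := by
  obtain ⟨C, hC0, hC⟩ := deriv_rho_bound
  have h := gw_limit m (q := fun k r => deriv (rho k) r ^ 2) (q' := fun r => 1) (C := C ^ 2)
    (fun k => (measurable_deriv _).pow_const 2) ?_ ?_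
  · refine h.trans_eq ?_
    · congr 1
      unfold gm
      refine setIntegral_congr_fun measurableSet_Ioi fun x _ => ?_
      ring
  · intro k r hr
    rw [abs_of_nonneg (by positivity), ← sq_abs]
    have h1 : |deriv (rho k) r| ^ 2 ≤ C ^ 2 := pow_le_pow_left₀ (abs_nonneg _) (hC k r hr) 2
    nlinarith [sq_nonneg r, mul_nonneg (sq_nonneg C) (sq_nonneg r)]
  · intro r hr
    refine tendsto_const_nhds.congr' ?_
    filter_upwards [eventually_big hr] with k hk
    rw [deriv_rho_one k hk, one_pow]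

end

end Pool.Agent.R662.WH
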