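import Pool.Agent.R662.WH.L3a
import Pool.Agent.R662.WH.L3b
import Pool.Agent.H212R2.KLS.R4

/-!
# L3: the Poincare inequality of the sphere with the sharp constant
-/

set_option autoImplicit false

open MeasureTheory Set Filter Topology Metric
open scoped ContDiff

namespace Pool.Agent.R662.WH

noncomputable section

open Pool.Agent.R256.HW (E)

/-- truncated Gaussian on the space -/
def W (n k : ℕ) (x : E n) : ℝ := gw k ‖x‖

lemma W_mid (n k : ℕ) (x y : E n) : W n k x * W n k y ≤ (W n k ((1 / 2 : ℝ) • (x + y))) ^ 2 *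
    Real.exp (-(1 / 4 * ‖x - y‖ ^ 2)) := by
  unfold W
  by_cases hx : ‖x‖ ≤ k
  · by_cases hy : ‖y‖ ≤ k
    · have hz : ‖(1 / 2 : ℝ) • (x + y)‖ ≤ k := by
        rw [norm_smul]
        have := norm_add_le x y
        norm_num
        linarith
      rw [gw, gw, gw, if_pos hx, if_pos hy, if_pos hz, ← Real.exp_add, ← Real.exp_nat_mul,
        ← Real.exp_add, Real.exp_le_exp, norm_smul, mul_pow]
      have hp := parallelogram_law_with_norm ℝ x y
      norm_num
      nlinarith [hp]
    · rw [gw, gw, if_neg hy, mul_zero]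
      positivity
  · rw [gw, if_neg hx, zero_mul]
    positivity

lemma step {n : ℕ} (hn : 3 ≤ n) (k : ℕ) {g : E n → ℝ} (hg : ContDiff ℝ ∞ g)
    (hm : ∫ θ : Sph n, g (θ : E n) ∂(sig n) = 0) :
    (∫ r in Ioi (0 : ℝ), r ^ (n - 1) * (rho k r ^ 2 * gw k r)) *
        ∫ θ : Sph n, g (θ : E n) ^ 2 ∂(sig n) ≤
      (∫ r in Ioi (0 : ℝ), r ^ (n - 1) * (deriv (rho k) r ^ 2 * gw k r)) *
        (∫ θ : Sph n, g (θ : E n) ^ 2 ∂(sig n)) +
      (∫ r in Ioi (0 : ℝ), r ^ (n - 1) * ((rho k r / r) ^ 2 * gw k r)) *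
        ∫ θ : Sph n, tau g (θ : E n) ∂(sig n) := by
  have hn1 : 1 ≤ n := by omega
  have hδ : 0 < 1 / ((k : ℝ) + 1) := by positivity
  set f : E n → ℝ := fun x => rho k ‖x‖ * g (‖x‖⁻¹ • x) with hf
  have hfs : ContDiff ℝ ∞ f := contDiff_radial hδ (rho_contDiff k) hg
    fun r hr => by rw [rho, chi_zero k hr, mul_zero]
  have hWm : Measurable (W n k) := (gw_measurable k).comp measurable_norm
  have hW0 : ∀ x, 0 ≤ W n k x := fun x => gw_nonneg _ _
  have hWb : ∃ B, ∀ x, W n k x ≤ B := ⟨1, fun x => (gw_le _ _).trans (by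
    rw [Real.exp_le_one_iff]; nlinarith [sq_nonneg ‖x‖])⟩
  have hWs : ∀ x, (k : ℝ) < ‖x‖ → W n k x = 0 := fun x hx => by
    rw [W, gw, if_neg (not_le.2 hx)]
  obtain ⟨c, hc⟩ := Pool.Agent.H212R2.KLS.poincare_of_strong (volume : Measure (E n)) (W n k) hW0
    hWm hWb ⟨k, hWs⟩ 1 one_pos (W_mid n k) f (hfs.of_le (by norm_cast))
  have I1 : ∀ {φ : E n → ℝ}, Continuous φ → Integrable (fun x => φ x * W n k x) volume :=
    fun hφ => Pool.Agent.H212R2.KLS.R4aux.intg hWm hW0 hWb hWs hφ
  have gd : Differentiable ℝ g := hg.differentiable (by simp)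
  have gdc : Continuous (fderiv ℝ g) := hg.continuous_fderiv (by simp)
  have tc : Continuous (tau g) := by
    unfold tau
    exact (gdc.norm.pow 2).sub ((gdc.clm_apply continuous_id).pow 2)
  -- the left side
  have L1 : ∫ x : E n, f x ^ 2 * W n k x =
      (∫ r in Ioi (0 : ℝ), r ^ (n - 1) * (rho k r ^ 2 * gw k r)) *
        ∫ θ : Sph n, g (θ : E n) ^ 2 ∂(sig n) := by
    rw [← prodPolar hn1 (fun r => rho k r ^ 2 * gw k r) (fun x => g x ^ 2)]
    refine integral_congr_ae (Eventually.of_forall fun x => ?_)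
    simp only [hf, W]
    ring
  have L2 : ∫ x : E n, f x * W n k x = 0 := by
    have h := prodPolar hn1 (fun r => rho k r * gw k r) g
    rw [hm, mul_zero] at h
    rw [← h]
    refine integral_congr_ae (Eventually.of_forall fun x => ?_)
    simp only [hf, W]
    ring
  have L3 : ∫ x : E n, f x ^ 2 * W n k x ≤ ∫ x : E n, (f x - c) ^ 2 * W n k x := by
    have e1 : ∫ x : E n, (f x - c) ^ 2 * W n k x =
        (∫ x : E n, f x ^ 2 * W n k x) - 2 * c * (∫ x : E n, f x * W n k x) +
          c ^ 2 * ∫ x : E n, W n k x := by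
      have i1 := I1 (φ := fun x => f x ^ 2) (hfs.continuous.pow 2)
      have i2 := (I1 (φ := f) hfs.continuous).const_mul (2 * c)
      have i3 : Integrable (fun x => c ^ 2 * W n k x) := I1 (φ := fun _ => c ^ 2) continuous_const
      have i4 : Integrable (fun x => f x ^ 2 * W n k x - 2 * c * (f x * W n k x)) := i1.sub i2
      rw [← integral_const_mul, ← integral_const_mul, ← integral_sub i1 i2,
        ← integral_add i4 i3]
      refine integral_congr_ae (Eventually.of_forall fun x => ?_)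
      simp only
      ring
    rw [e1, L2]
    have h2 : 0 ≤ ∫ x : E n, W n k x := integral_nonneg hW0
    nlinarith [mul_nonneg (sq_nonneg c) h2]
  -- the right side
  have c1 : Continuous fun x : E n => deriv (rho k) ‖x‖ ^ 2 * g (‖x‖⁻¹ • x) ^ 2 := by
    have hd : ContDiff ℝ 0 fun r => deriv (rho k) r ^ 2 :=
      contDiff_zero.2 (((rho_contDiff k).continuous_deriv (by simp)).pow 2)
    have h := contDiff_radial (n := n) hδ hd (contDiff_zero.2 (hg.continuous.pow 2))
      fun r hr => by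
        show deriv (rho k) r ^ 2 = 0
        rw [deriv_rho_zero k hr]; norm_num
    exact contDiff_zero.1 h
  have c2 : Continuous fun x : E n => (rho k ‖x‖ / ‖x‖) ^ 2 * tau g (‖x‖⁻¹ • x) := by
    have hd : ContDiff ℝ 0 fun r => chi k r ^ 2 :=
      contDiff_zero.2 ((chi_contDiff k).continuous.pow 2)
    have h := contDiff_radial (n := n) hδ hd (contDiff_zero.2 tc)
      fun r hr => by
        show chi k r ^ 2 = 0
        rw [chi_zero k hr]; norm_num
    have h2 := contDiff_zero.1 h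
    refine h2.congr fun x => ?_
    by_cases hx : ‖x‖ = 0
    · rw [hx, rho, chi_zero k hδ.le]; norm_num
    · rw [rho, mul_div_cancel_left₀ _ hx]
  have R1 : ∫ x : E n, ‖fderiv ℝ f x‖ ^ 2 * W n k x =
      ∫ x : E n, (deriv (rho k) ‖x‖ ^ 2 * g (‖x‖⁻¹ • x) ^ 2 * W n k x +
        (rho k ‖x‖ / ‖x‖) ^ 2 * tau g (‖x‖⁻¹ • x) * W n k x) := by
    refine integral_congr_ae ?_
    have h0 : ∀ᵐ x : E n, x ≠ 0 := by
      have : Nonempty (Fin n) := ⟨⟨0, hn1⟩⟩
      have : Nontrivial (E n) := inferInstance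
      exact (measure_singleton (0 : E n) : volume {(0 : E n)} = 0) |> compl_mem_ae_iff.2
    filter_upwards [h0] with x hx
    rw [hf, fderiv_radial ((rho_contDiff k).differentiable (by simp)) gd hx]
    ring
  have R2 : ∫ x : E n, ‖fderiv ℝ f x‖ ^ 2 * W n k x =
      (∫ r in Ioi (0 : ℝ), r ^ (n - 1) * (deriv (rho k) r ^ 2 * gw k r)) *
        (∫ θ : Sph n, g (θ : E n) ^ 2 ∂(sig n)) +
      (∫ r in Ioi (0 : ℝ), r ^ (n - 1) * ((rho k r / r) ^ 2 * gw k r)) *
        ∫ θ : Sph n, tau g (θ : E n) ∂(sig n) := by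
    rw [R1, integral_add (I1 c1) (I1 c2),
      ← prodPolar hn1 (fun r => deriv (rho k) r ^ 2 * gw k r) (fun x => g x ^ 2),
      ← prodPolar hn1 (fun r => (rho k r / r) ^ 2 * gw k r) (tau g)]
    congr 1
    · refine integral_congr_ae (Eventually.of_forall fun x => ?_)
      simp only [W]
      ring
    · refine integral_congr_ae (Eventually.of_forall fun x => ?_)
      simp only [W]
      ring
  rw [← L1, ← R2]
  simpa using L3.trans hc

lemma mean_zero_case {n : ℕ} (hn : 3 ≤ n) {g : E n → ℝ} (hg : ContDiff ℝ ∞ g)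
    (hm : ∫ θ : Sph n, g (θ : E n) ∂(sig n) = 0) :
    ((n : ℝ) - 1) * ∫ θ : Sph n, g (θ : E n) ^ 2 ∂(sig n) ≤
      ∫ θ : Sph n, tau g (θ : E n) ∂(sig n) := by
  have h := le_of_tendsto_of_tendsto' ((lim_b (n - 1)).mul_const _)
    (((lim_a' (n - 1)).mul_const _).add ((lim_a (n - 1)).mul_const _))
    fun k => step hn k hg hm
  rw [gm_succ] at h
  have hc : ((n - 1 : ℕ) : ℝ) + 1 = n := by
    have : n - 1 + 1 = n := by omega
    exact_mod_cast this
  rw [hc] at h
  have hp := gm_pos (n - 1)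
  have h2 : gm (n - 1) * (((n : ℝ) - 1) * ∫ θ : Sph n, g (θ : E n) ^ 2 ∂(sig n)) ≤
      gm (n - 1) * ∫ θ : Sph n, tau g (θ : E n) ∂(sig n) := by
    linarith
  exact le_of_mul_le_mul_left h2 hp

theorem L3 : S_L3 := by
  intro n hn g hg
  have hfin := sig_finite n
  have hn1 : 1 ≤ n := by omega
  have : Nonempty (Fin n) := ⟨⟨0, hn1⟩⟩
  have : Nontrivial (E n) := inferInstance
  have hs : 0 < (sig n).real univ := by
    unfold sig
    rw [Measure.toSphere_real_apply_univ]
    have h1 : 0 < Module.finrank ℝ (E n) := by simp; omega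
    have h2 : 0 < (volume : Measure (E n)).real (ball 0 1) := by
      rw [Measure.real, ENNReal.toReal_pos_iff]
      exact ⟨measure_ball_pos _ _ one_pos, measure_ball_lt_top⟩
    positivity
  set m : ℝ := (∫ θ : Sph n, g (θ : E n) ∂(sig n)) / (sig n).real univ with hmd
  have cS : ∀ {φ : E n → ℝ}, Continuous φ → Integrable (fun θ : Sph n => φ (θ : E n)) (sig n) := by
    intro φ hφ
    have h1 : Continuous fun θ : Sph n => φ (θ : E n) := hφ.comp continuous_subtype_val
    exact h1.integrable_of_hasCompactSupport (HasCompactSupport.of_compactSpace _)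
  have i1 := cS (hg.continuous)
  have i2 : Integrable (fun θ : Sph n => g (θ : E n) ^ 2) (sig n) :=
    cS (φ := fun x => g x ^ 2) (hg.continuous.pow 2)
  have hint : ∫ θ : Sph n, g (θ : E n) ∂(sig n) = m * (sig n).real univ := by
    rw [hmd]; field_simp
  have h0 : ∫ θ : Sph n, (g (θ : E n) - m) ∂(sig n) = 0 := by
    rw [integral_sub i1 (integrable_const _), integral_const, hint, smul_eq_mul]
    ring
  have h1 := mean_zero_case hn (g := fun x => g x - m) (hg.sub contDiff_const) h0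
  have e1 : ∫ θ : Sph n, (g (θ : E n) - m) ^ 2 ∂(sig n) =
      (∫ θ : Sph n, g (θ : E n) ^ 2 ∂(sig n)) -
        (∫ θ : Sph n, g (θ : E n) ∂(sig n)) ^ 2 / (sig n).real univ := by
    have e2 : ∀ θ : Sph n, (g (θ : E n) - m) ^ 2 = g (θ : E n) ^ 2 - 2 * m * g (θ : E n) + m ^ 2 :=
      fun θ => by ring
    simp only [e2]
    have i3 : Integrable (fun θ : Sph n => g (θ : E n) ^ 2 - 2 * m * g (θ : E n)) (sig n) :=
      i2.sub (i1.const_mul _)
    rw [integral_add i3 (integrable_const _),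
      integral_sub i2 (i1.const_mul _), integral_const_mul, integral_const, hint, smul_eq_mul]
    field_simp
    ring
  have e3 : ∀ x, tau (fun x => g x - m) x = ‖fderiv ℝ g x‖ ^ 2 - (fderiv ℝ g x x) ^ 2 := by
    intro x
    rw [tau, fderiv_sub_const]
  simp only [e3] at h1
  rw [← e1]
  exact h1

end

end Pool.Agent.R662.WH
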