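import Pool.Agent.R662.WH.Stm

/-!
# MP_5b99fd_an, part U12: the test functions `x_1` and `|x|^2 + c`
-/

set_option autoImplicit false

open MeasureTheory Set Filter Topology
open scoped ContDiff

namespace Pool.Agent.R662.WH

noncomputable section

open Pool.Agent.R256.HW

namespace U12aux

variable {n : ℕ}

lemma coord_sq_le (x : E n) (i : Fin n) : x i ^ 2 ≤ ‖x‖ ^ 2 := by
  rw [EuclideanSpace.norm_sq_eq]
  have := Finset.single_le_sum (f := fun j => ‖x j‖ ^ 2) (fun j _ => sq_nonneg _)
    (Finset.mem_univ i)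
  simpa using this

lemma coord_cont (i : Fin n) : Continuous fun x : E n => x i :=
  (EuclideanSpace.proj (𝕜 := ℝ) i).continuous

/-- comparison with `wt` -/
lemma int_of_le {γ : ℝ} (h : γ < -(n : ℝ) / 2) {f : E n → ℝ} (hf : Continuous f)
    (hle : ∀ x, |f x| ≤ wt γ x) : Integrable f :=
  (wt_integrable h).mono' hf.aestronglyMeasurable (Eventually.of_forall fun x => by
    rw [Real.norm_eq_abs]; exact hle x)

lemma le1 (α : ℝ) (x : E n) : wt (α - 1) x * ‖x‖ ^ 2 ≤ wt α x := by
  rw [wt_one_sub α]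
  have := wt_pos (α - 1) x
  nlinarith

lemma le0 (α : ℝ) (x : E n) : wt (α - 1) x ≤ wt α x := by
  rw [wt_one_sub α]
  have := wt_pos (α - 1) x
  nlinarith [mul_nonneg this.le (sq_nonneg ‖x‖)]

lemma i0 {α : ℝ} (h : α < -(n : ℝ) / 2) : Integrable fun x : E n => wt (α - 1) x :=
  int_of_le h (wt_continuous _) fun x => by
    rw [abs_of_pos (wt_pos _ _)]; exact le0 α x

lemma i1 {α : ℝ} (h : α < -(n : ℝ) / 2) : Integrable fun x : E n => wt (α - 1) x * ‖x‖ ^ 2 :=
  int_of_le h ((wt_continuous _).mul (continuous_norm.pow 2)) fun x => by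
    rw [abs_of_nonneg (mul_nonneg (wt_pos _ _).le (sq_nonneg _))]; exact le1 α x

lemma i2 {α : ℝ} (h : α < -((n : ℝ) + 2) / 2) :
    Integrable fun x : E n => wt (α - 1) x * ‖x‖ ^ 4 :=
  int_of_le (γ := α + 1) (by linarith) ((wt_continuous _).mul (continuous_norm.pow 4)) fun x => by
    rw [abs_of_nonneg (mul_nonneg (wt_pos _ _).le (by positivity))]
    have h1 := le1 α x
    have h2 := le1 (α + 1) x
    have e : α + 1 - 1 = α := by ring
    rw [e] at h2
    have h3 : 0 ≤ ‖x‖ ^ 2 := sq_nonneg _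
    calc wt (α - 1) x * ‖x‖ ^ 4 = (wt (α - 1) x * ‖x‖ ^ 2) * ‖x‖ ^ 2 := by ring
      _ ≤ wt α x * ‖x‖ ^ 2 := mul_le_mul_of_nonneg_right h1 h3
      _ ≤ _ := h2

/-- identity `I0` -/
lemma I0 {α : ℝ} (h : α < -(n : ℝ) / 2) :
    n * ((∫ x : E n, wt (α - 1) x) + ∫ x : E n, wt (α - 1) x * ‖x‖ ^ 2) +
      2 * α * ∫ x : E n, wt (α - 1) x * ‖x‖ ^ 2 = 0 := by
  have hd := div_identity' (n := n) (φ := fun _ => (1 : ℝ)) (α + 1) contDiff_const
    (by simp) (by
      have e : α + 1 - 1 = α := by ring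
      simpa [e] using wt_integrable h)
  have eB : B (α + 1) (fun _ : E n => (1 : ℝ)) =
      (∫ x : E n, wt (α - 1) x) + ∫ x : E n, wt (α - 1) x * ‖x‖ ^ 2 := by
    unfold B
    rw [← integral_add (i0 h) (i1 h)]
    refine integral_congr_ae (Eventually.of_forall fun x => ?_)
    have e : α + 1 - 1 = α := by ring
    simp only [e]
    rw [wt_one_sub α]; ring
  have eS : S (α + 1) (fun _ : E n => (1 : ℝ)) = ∫ x : E n, wt (α - 1) x * ‖x‖ ^ 2 := by
    unfold S
    refine integral_congr_ae (Eventually.of_forall fun x => ?_)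
    have e : α + 1 - 2 = α - 1 := by ring
    simp [e]
  have eT : T (α + 1) (fun _ : E n => (1 : ℝ)) = 0 := by
    unfold T
    simp
  rw [eB, eS, eT] at hd
  linear_combination hd

/-- identity `I1` for one coordinate -/
lemma I1c {α : ℝ} (h : α < -((n : ℝ) + 2) / 2) (i : Fin n) :
    (n + 2) * (∫ x : E n, wt α x * x i ^ 2) +
      2 * α * ∫ x : E n, wt (α - 1) x * ‖x‖ ^ 2 * x i ^ 2 = 0 := by
  have hcd : ContDiff ℝ 1 (fun x : E n => x i) :=
    (EuclideanSpace.proj (𝕜 := ℝ) i).contDiff
  have hfd : ∀ x : E n, fderiv ℝ (fun x : E n => x i) x = EuclideanSpace.proj (𝕜 := ℝ) i :=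
    fun x => (EuclideanSpace.proj (𝕜 := ℝ) i).hasFDerivAt.fderiv
  have e : α + 1 - 1 = α := by ring
  have hd := div_identity' (n := n) (φ := fun x => x i) (α + 1) hcd
    (by
      simp_rw [hfd]
      exact (wt_integrable (by linarith)).mul_const _)
    (by
      rw [e]
      refine int_of_le (γ := α + 1) (by linarith)
        ((wt_continuous _).mul ((coord_cont i).pow 2)) fun x => ?_
      rw [abs_of_nonneg (mul_nonneg (wt_pos _ _).le (sq_nonneg _))]
      have h2 := le1 (α + 1) x
      rw [e] at h2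
      exact (mul_le_mul_of_nonneg_left (coord_sq_le x i) (wt_pos _ _).le).trans h2)
  have eB : B (α + 1) (fun x : E n => x i) = ∫ x : E n, wt α x * x i ^ 2 := by
    unfold B; rw [e]
  have eS : S (α + 1) (fun x : E n => x i) = ∫ x : E n, wt (α - 1) x * ‖x‖ ^ 2 * x i ^ 2 := by
    unfold S
    have e' : α + 1 - 2 = α - 1 := by ring
    rw [e']
  have eT : T (α + 1) (fun x : E n => x i) = ∫ x : E n, wt α x * x i ^ 2 := by
    unfold T
    refine integral_congr_ae (Eventually.of_forall fun x => ?_)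
    simp only [hfd, e]
    simp [sq]
  rw [eB, eS, eT] at hd
  linear_combination hd

/-- identity `I1` -/
lemma I1 {α : ℝ} (h : α < -((n : ℝ) + 2) / 2) :
    (n + 2) * ((∫ x : E n, wt (α - 1) x * ‖x‖ ^ 2) + ∫ x : E n, wt (α - 1) x * ‖x‖ ^ 4) +
      2 * α * ∫ x : E n, wt (α - 1) x * ‖x‖ ^ 4 = 0 := by
  have hi : ∀ i : Fin n, Integrable fun x : E n => wt α x * x i ^ 2 := fun i => by
    refine int_of_le (γ := α + 1) (by linarith)
        ((wt_continuous _).mul ((coord_cont i).pow 2)) fun x => ?_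
    rw [abs_of_nonneg (mul_nonneg (wt_pos _ _).le (sq_nonneg _))]
    have h2 := le1 (α + 1) x
    have e : α + 1 - 1 = α := by ring
    rw [e] at h2
    exact (mul_le_mul_of_nonneg_left (coord_sq_le x i) (wt_pos _ _).le).trans h2
  have hj : ∀ i : Fin n, Integrable fun x : E n => wt (α - 1) x * ‖x‖ ^ 2 * x i ^ 2 := fun i => by
    refine (i2 h).mono' (((wt_continuous _).mul (continuous_norm.pow 2)).mul
      ((coord_cont i).pow 2)).aestronglyMeasurable (Eventually.of_forall fun x => ?_)
    have hw := wt_pos (α - 1) x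
    rw [Real.norm_eq_abs, abs_of_nonneg (by positivity)]
    have h1 := coord_sq_le x i
    have h2 : 0 ≤ wt (α - 1) x * ‖x‖ ^ 2 := by positivity
    calc wt (α - 1) x * ‖x‖ ^ 2 * x i ^ 2 ≤ wt (α - 1) x * ‖x‖ ^ 2 * ‖x‖ ^ 2 :=
          mul_le_mul_of_nonneg_left h1 h2
      _ = _ := by ring
  have h1 : ∑ i : Fin n, ((n + 2) * (∫ x : E n, wt α x * x i ^ 2) +
      2 * α * ∫ x : E n, wt (α - 1) x * ‖x‖ ^ 2 * x i ^ 2) = 0 :=
    Finset.sum_eq_zero fun i _ => I1c h i
  rw [Finset.sum_add_distrib, ← Finset.mul_sum, ← Finset.mul_sum,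
    ← integral_finsetSum _ fun i _ => hi i, ← integral_finsetSum _ fun i _ => hj i] at h1
  have hs : ∀ x : E n, ∑ i, x i ^ 2 = ‖x‖ ^ 2 := by
    intro x
    rw [EuclideanSpace.norm_sq_eq]
    simp
  have e1 : ∫ x : E n, ∑ i, wt α x * x i ^ 2 =
      (∫ x : E n, wt (α - 1) x * ‖x‖ ^ 2) + ∫ x : E n, wt (α - 1) x * ‖x‖ ^ 4 := by
    rw [← integral_add (i1 (by linarith)) (i2 h)]
    refine integral_congr_ae (Eventually.of_forall fun x => ?_)
    simp only
    rw [← Finset.mul_sum, hs, wt_one_sub α]; ring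
  have e2 : ∫ x : E n, ∑ i, wt (α - 1) x * ‖x‖ ^ 2 * x i ^ 2 =
      ∫ x : E n, wt (α - 1) x * ‖x‖ ^ 4 := by
    refine integral_congr_ae (Eventually.of_forall fun x => ?_)
    simp only
    rw [← Finset.mul_sum, hs]; ring
  rw [e1, e2] at h1
  exact h1

lemma U1 (hUP : S_UP) : S_U1 := by
  intro n α hn hα
  have hn' : (3 : ℝ) ≤ n := by exact_mod_cast hn
  let i : Fin n := ⟨0, by omega⟩
  have hcd : ContDiff ℝ ∞ (fun x : E n => x i) :=
    (EuclideanSpace.proj (𝕜 := ℝ) i).contDiff
  have hfd : ∀ x : E n, fderiv ℝ (fun x : E n => x i) x = EuclideanSpace.proj (𝕜 := ℝ) i :=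
    fun x => (EuclideanSpace.proj (𝕜 := ℝ) i).hasFDerivAt.fderiv
  have hpn : ‖(EuclideanSpace.proj (𝕜 := ℝ) i : E n →L[ℝ] ℝ)‖ = 1 := by
    apply le_antisymm
    · refine ContinuousLinearMap.opNorm_le_bound _ zero_le_one fun x => ?_
      rw [one_mul]
      have h1 := coord_sq_le x i
      have h2 : ‖(EuclideanSpace.proj (𝕜 := ℝ) i : E n →L[ℝ] ℝ) x‖ = |x i| := by
        simp
      rw [h2]
      exact abs_le_of_sq_le_sq h1 (norm_nonneg _)
    · have h1 := (EuclideanSpace.proj (𝕜 := ℝ) i : E n →L[ℝ] ℝ).le_opNorm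
        (EuclideanSpace.single i (1 : ℝ))
      simpa using h1
  have hα1 : α + 1 < -(n : ℝ) / 2 := by linarith
  have hα0 : α < -(n : ℝ) / 2 := by linarith
  have iB : Integrable fun x : E n => wt (α - 1) x * x i ^ 2 := by
    refine int_of_le hα0 ((wt_continuous _).mul ((coord_cont i).pow 2)) fun x => ?_
    rw [abs_of_nonneg (mul_nonneg (wt_pos _ _).le (sq_nonneg _))]
    exact (mul_le_mul_of_nonneg_left (coord_sq_le x i) (wt_pos _ _).le).trans (le1 α x)
  have iA : Integrable (wt α : E n → ℝ) := wt_integrable hα0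
  have iC : Integrable fun x : E n => x i * wt α x := by
    refine int_of_le hα1 ((coord_cont i).mul (wt_continuous _)) fun x => ?_
    rw [abs_mul, abs_of_pos (wt_pos _ _), mul_comm]
    have h2 : wt (α + 1) x = (1 + ‖x‖ ^ 2) * wt α x := wt_succ α x
    rw [h2, mul_comm]
    refine mul_le_mul_of_nonneg_right ?_ (wt_pos _ _).le
    have h3 := coord_sq_le x i
    nlinarith [sq_nonneg (|x i| - 1), sq_abs (x i)]
  have hfw : ∀ x : E n, fderiv ℝ (wt α : E n → ℝ) x (EuclideanSpace.single i 1) =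
      2 * α * wt (α - 1) x * x i := by
    intro x
    rw [fderiv_wt]
    simp [EuclideanSpace.inner_single_right]
  have hparts := integral_mul_fderiv_eq_neg_fderiv_mul_of_integrable
    (μ := (volume : Measure (E n))) (𝕜 := ℝ)
    (f := fun x : E n => x i) (g := wt α) (v := EuclideanSpace.single i 1)
    (by simpa [hfd] using iA)
    (by
      simp_rw [hfw]
      refine (iB.const_mul (2 * α)).congr (Eventually.of_forall fun x => ?_)
      simp only; ring)
    iC (fun x _ => (hcd.differentiable (by simp)) x)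
    (fun x _ => ((wt_contDiff α).differentiable (by simp)) x)
  have eA : A α (fun x : E n => x i) = ∫ x : E n, wt α x := by
    unfold A
    refine integral_congr_ae (Eventually.of_forall fun x => ?_)
    simp only [hfd, hpn]
    ring
  have eAB : A α (fun x : E n => x i) = -2 * α * B α (fun x : E n => x i) := by
    rw [eA]
    unfold B
    have e1 : ∫ x : E n, (x i) * fderiv ℝ (wt α : E n → ℝ) x (EuclideanSpace.single i 1) =
        2 * α * ∫ x : E n, wt (α - 1) x * x i ^ 2 := by
      rw [← integral_const_mul]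
      refine integral_congr_ae (Eventually.of_forall fun x => ?_)
      simp only [hfw]; ring
    have e2 : ∫ x : E n, fderiv ℝ (fun x : E n => x i) x (EuclideanSpace.single i 1) * wt α x =
        ∫ x : E n, wt α x := by
      refine integral_congr_ae (Eventually.of_forall fun x => ?_)
      simp [hfd]
    rw [e1, e2] at hparts
    linear_combination hparts
  have hApos : 0 < A α (fun x : E n => x i) := by
    rw [eA]
    refine (integral_pos_iff_support_of_nonneg (fun x => (wt_pos _ x).le) iA).mpr ?_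
    have : Function.support (wt α : E n → ℝ) = univ := by
      ext x
      simp [(wt_pos α x).ne']
    rw [this]
    exact isOpen_univ.measure_pos _ univ_nonempty
  have hBpos : 0 < B α (fun x : E n => x i) := by
    rw [eAB] at hApos
    by_contra hB
    push Not at hB
    nlinarith
  have hmean : ∫ x : E n, wt (α - 1) x * x i = 0 := by
    have h1 : ∫ x : E n, wt (α - 1) (-x) * (-x) i = ∫ x : E n, wt (α - 1) x * x i :=
      integral_neg_eq_self (fun x : E n => wt (α - 1) x * x i) volume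
    have h2 : ∫ x : E n, wt (α - 1) (-x) * (-x) i = - ∫ x : E n, wt (α - 1) x * x i := by
      rw [← integral_neg]
      refine integral_congr_ae (Eventually.of_forall fun x => ?_)
      simp [wt]
    linarith
  have := hUP n α (fun x : E n => x i) hn (by linarith) hcd
    (by
      simp_rw [hfd]
      exact iA.mul_const _) iB hmean hBpos
  rw [eAB, mul_div_assoc, div_self hBpos.ne', mul_one] at this
  exact this

lemma U2 (hUP : S_UP) : S_U2 := by
  intro n α hn hα
  have hn' : (3 : ℝ) ≤ n := by exact_mod_cast hn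
  have hneg : (n : ℝ) + 2 * α < 0 := by linarith
  set c : ℝ := n / (n + 2 * α) with hc
  have hcn : c * (n + 2 * α) = n := div_mul_cancel₀ _ hneg.ne
  set φ : E n → ℝ := fun x => ‖x‖ ^ 2 + c with hφ
  have hcd : ContDiff ℝ ∞ φ := (contDiff_norm_sq ℝ).add contDiff_const
  have hfd : ∀ x : E n, fderiv ℝ φ x = 2 • innerSL ℝ x := fun x =>
    (((hasStrictFDerivAt_norm_sq x).hasFDerivAt).add_const c).fderiv
  have hnd : ∀ x : E n, ‖fderiv ℝ φ x‖ ^ 2 = 4 * ‖x‖ ^ 2 := by
    intro x
    rw [hfd, ← Nat.cast_smul_eq_nsmul ℝ, norm_smul, innerSL_apply_norm, mul_pow]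
    norm_num
  have hα0 : α < -(n : ℝ) / 2 := by linarith
  have j0 := i0 hα0
  have j1 := i1 hα0
  have j2 := i2 hα
  have h0 := I0 hα0
  have h1 := I1 hα
  set m0 := ∫ x : E n, wt (α - 1) x with hm0
  set m1 := ∫ x : E n, wt (α - 1) x * ‖x‖ ^ 2 with hm1
  set m2 := ∫ x : E n, wt (α - 1) x * ‖x‖ ^ 4 with hm2
  have iA : Integrable fun x : E n => wt α x * ‖fderiv ℝ φ x‖ ^ 2 := by
    simp_rw [hnd]
    refine ((j1.add j2).const_mul 4).congr (Eventually.of_forall fun x => ?_)
    simp only [Pi.add_apply]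
    rw [wt_one_sub α]; ring
  have eA : A α φ = 4 * (m1 + m2) := by
    unfold A
    rw [hm1, hm2, ← integral_add j1 j2, ← integral_const_mul]
    refine integral_congr_ae (Eventually.of_forall fun x => ?_)
    simp only [hnd]
    rw [wt_one_sub α]; ring
  have iB : Integrable fun x : E n => wt (α - 1) x * φ x ^ 2 := by
    refine ((j2.add (j1.const_mul (2 * c))).add (j0.const_mul (c ^ 2))).congr
      (Eventually.of_forall fun x => ?_)
    simp only [Pi.add_apply, hφ]
    ring
  have eB : B α φ = m2 + 2 * c * m1 + c ^ 2 * m0 := by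
    unfold B
    have j21 : Integrable fun x : E n => wt (α - 1) x * ‖x‖ ^ 4 +
        2 * c * (wt (α - 1) x * ‖x‖ ^ 2) := j2.add (j1.const_mul (2 * c))
    rw [hm0, hm1, hm2, ← integral_const_mul, ← integral_const_mul, ← integral_add j2
      (j1.const_mul (2 * c)), ← integral_add j21 (j0.const_mul (c ^ 2))]
    refine integral_congr_ae (Eventually.of_forall fun x => ?_)
    simp only [hφ]
    ring
  have hmean : ∫ x : E n, wt (α - 1) x * φ x = 0 := by
    have e : ∫ x : E n, wt (α - 1) x * φ x = m1 + c * m0 := by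
      rw [hm0, hm1, ← integral_const_mul, ← integral_add j1 (j0.const_mul c)]
      refine integral_congr_ae (Eventually.of_forall fun x => ?_)
      simp only [hφ]
      ring
    rw [e]
    have h2 : (n + 2 * α) * (m1 + c * m0) = 0 := by
      linear_combination h0 + m0 * hcn
    rcases mul_eq_zero.mp h2 with h | h
    · exact absurd h hneg.ne
    · exact h
  have hc0 : c ≠ 0 := by
    rw [hc]
    exact div_ne_zero (by linarith) hneg.ne
  have hBpos : 0 < B α φ := by
    unfold B
    have hcont : Continuous fun x => wt (α - 1) x * φ x ^ 2 :=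
      (wt_continuous _).mul (hcd.continuous.pow 2)
    refine (integral_pos_iff_support_of_nonneg
      (fun x => mul_nonneg (wt_pos _ x).le (sq_nonneg _)) iB).mpr ?_
    refine (hcont.isOpen_support).measure_pos _ ⟨0, ?_⟩
    rw [Function.mem_support]
    have h2 := wt_pos (α - 1) (0 : E n)
    have h3 : φ (0 : E n) = c := by simp [hφ]
    rw [h3]
    positivity
  have eAB : A α φ = (-4 * α - 2 * n) * B α φ := by
    rw [eA, eB]
    have h2 : m1 + c * m0 = 0 := by
      have h2 : (n + 2 * α) * (m1 + c * m0) = 0 := by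
        linear_combination h0 + m0 * hcn
      rcases mul_eq_zero.mp h2 with h | h
      · exact absurd h hneg.ne
      · exact h
    linear_combination (-2 : ℝ) * h1 * (-1) + (2 * m1) * hcn + (-4 * α - 2 * n) * (-c) * h2
  have := hUP n α φ hn (by linarith) hcd iA iB hmean hBpos
  rw [eAB, mul_div_assoc, div_self hBpos.ne', mul_one] at this
  exact this

end U12aux

theorem U12 : S_UP → S_U1 ∧ S_U2 := fun h => ⟨U12aux.U1 h, U12aux.U2 h⟩

end

end Pool.Agent.R662.WH
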