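import Pool.Agent.R662.WH.Stm

/-!
# U3: the test functions `(1 + |x|^2)^(-b) - mean` (helper746)
-/

set_option autoImplicit false

open MeasureTheory Set Filter Topology
open scoped ContDiff

namespace Pool.Agent.R662.WH

noncomputable section

open Pool.Agent.R256.HW

lemma wt_mono {n : ℕ} {a b : ℝ} (h : a ≤ b) (x : E n) : wt a x ≤ wt b x := by
  unfold wt
  exact Real.rpow_le_rpow_of_exponent_le (by nlinarith [sq_nonneg ‖x‖]) h

/-- `(1 + |x|^2)^(-n/2)` is not integrable -/
lemma not_integrable_wt {n : ℕ} (hn : 3 ≤ n) : ¬ Integrable (wt (-(n:ℝ) / 2) : E n → ℝ) := by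
  intro h
  have : Nontrivial (E n) := by
    have : Nonempty (Fin n) := ⟨⟨0, by omega⟩⟩
    infer_instance
  have h1 : Integrable (fun x : E n => (fun r : ℝ => (1 + r ^ 2) ^ (-(n:ℝ) / 2)) ‖x‖) := h
  rw [integrable_fun_norm_addHaar (volume : Measure (E n))
    (f := fun r : ℝ => (1 + r ^ 2) ^ (-(n:ℝ) / 2))] at h1
  simp only [finrank_euclideanSpace, Fintype.card_fin, smul_eq_mul] at h1
  have h2 : IntegrableOn (fun y : ℝ => y ^ (n - 1) * (1 + y ^ 2) ^ (-(n:ℝ) / 2)) (Ioi 1) :=
    h1.mono_set (Ioi_subset_Ioi zero_le_one)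
  have hc : (0:ℝ) < 2 ^ (-(n:ℝ) / 2) := Real.rpow_pos_of_pos two_pos _
  have h3 : IntegrableOn (fun y : ℝ => 2 ^ (-(n:ℝ) / 2) * y⁻¹) (Ioi 1) := by
    refine Integrable.mono' h2 ?_ ?_
    · exact (measurable_const.mul measurable_inv).aestronglyMeasurable
    · refine (ae_restrict_mem measurableSet_Ioi).mono fun y hy => ?_
      have hy1 : (1:ℝ) < y := hy
      have hy0 : (0:ℝ) < y := by linarith
      rw [Real.norm_eq_abs, abs_of_nonneg (by positivity)]
      have e1 : (2 * y ^ 2) ^ (-(n:ℝ) / 2) ≤ (1 + y ^ 2) ^ (-(n:ℝ) / 2) := by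
        apply Real.rpow_le_rpow_of_nonpos (by positivity) (by nlinarith)
        have : (0:ℝ) ≤ n := Nat.cast_nonneg n
        linarith
      have e2 : (2 * y ^ 2) ^ (-(n:ℝ) / 2) = 2 ^ (-(n:ℝ) / 2) * (y ^ n)⁻¹ := by
        rw [Real.mul_rpow (by norm_num) (by positivity)]
        congr 1
        rw [← Real.rpow_natCast y 2, ← Real.rpow_mul hy0.le]
        rw [show ((2:ℕ):ℝ) * (-(n:ℝ) / 2) = -(n:ℝ) by push_cast; ring]
        rw [Real.rpow_neg hy0.le, Real.rpow_natCast]
      have e3 : y ^ (n - 1) * (y ^ n)⁻¹ = y⁻¹ := by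
        have : y ^ n = y ^ (n - 1) * y := by
          rw [← pow_succ]; congr 1; omega
        rw [this]
        field_simp
      calc 2 ^ (-(n:ℝ) / 2) * y⁻¹ = y ^ (n - 1) * (2 * y ^ 2) ^ (-(n:ℝ) / 2) := by
            rw [e2, ← e3]; ring
        _ ≤ y ^ (n - 1) * (1 + y ^ 2) ^ (-(n:ℝ) / 2) :=
            mul_le_mul_of_nonneg_left e1 (by positivity)
  have h4 : IntegrableOn (fun y : ℝ => y⁻¹) (Ioi 1) := by
    have h5 := h3.const_mul (2 ^ (-(n:ℝ) / 2) : ℝ)⁻¹
    refine h5.congr (Eventually.of_forall fun y => ?_)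
    field_simp
  exact not_integrableOn_Ioi_inv h4

theorem U3 : S_UP → S_U3 := by
  intro hUP n α hn hα
  have hn' : (3:ℝ) ≤ n := by exact_mod_cast hn
  set T' : ℝ := 2 - 2 * α - n with hT
  have hTpos : 0 < T' := by rw [hT]; linarith
  -- the base quantities
  have hw : Integrable (wt (α - 1) : E n → ℝ) := wt_integrable (by linarith)
  set m0 : ℝ := ∫ x : E n, wt (α - 1) x with hm0
  have hm0pos : 0 < m0 := by
    rw [hm0]
    refine (integral_pos_iff_support_of_nonneg (fun x => (wt_pos _ x).le) hw).mpr ?_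
    have : Function.support (wt (α - 1) : E n → ℝ) = univ := by
      ext x
      simp only [Function.mem_support, mem_univ, iff_true]
      exact (wt_pos _ _).ne'
    rw [this]
    exact isOpen_univ.measure_pos _ univ_nonempty
  have hg : Integrable (wt (α - 1 + T' / 4) : E n → ℝ) := wt_integrable (by rw [hT]; linarith)
  set m : ℝ := ∫ x : E n, wt (α - 1 + T' / 4) x with hm
  have hbest0 : 0 ≤ best n α := by
    unfold best
    apply Real.sInf_nonneg
    rintro q ⟨u, -, rfl⟩
    exact div_nonneg (A_nonneg _ _) (B_nonneg _ _)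
  -- main inequality for each `b`
  have main : ∀ b : ℝ, -T' / 4 < b → (best n α - 4 * b ^ 2) * (∫ x : E n, wt (α - 1 - 2 * b) x) ≤
      best n α * (m ^ 2 / m0) := by
    intro b hb
    have hbI : ((n:ℝ) + 2 * α - 2) / 4 < b := by rw [hT] at hb; linarith
    have hI : Integrable (wt (α - 1 - 2 * b) : E n → ℝ) := wt_integrable (by rw [hT] at hb; linarith)
    have hmb : Integrable (wt (α - 1 - b) : E n → ℝ) := wt_integrable (by rw [hT] at hb; linarith)
    set I : ℝ := ∫ x : E n, wt (α - 1 - 2 * b) x with hIdef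
    have hI0 : 0 ≤ I := integral_nonneg fun x => (wt_pos _ x).le
    set mb : ℝ := ∫ x : E n, wt (α - 1 - b) x with hmbdef
    have hmb0 : 0 ≤ mb := integral_nonneg fun x => (wt_pos _ x).le
    have hmbm : mb ≤ m := by
      rw [hmbdef, hm]
      exact integral_mono hmb hg fun x => wt_mono (by linarith) x
    set c : ℝ := mb / m0 with hc
    set φ : E n → ℝ := fun x => wt (-b) x - c with hφ
    have hφC : ContDiff ℝ ∞ φ := (wt_contDiff _).sub contDiff_const
    have hdφ : ∀ x, fderiv ℝ φ x = fderiv ℝ (wt (-b) : E n → ℝ) x := by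
      intro x
      rw [hφ, fderiv_sub_const]
    have hA : Integrable (fun x => wt α x * ‖fderiv ℝ φ x‖ ^ 2) := by
      simp_rw [hdφ]
      exact test_intA hbI
    have eB : ∀ x : E n, wt (α - 1) x * φ x ^ 2 =
        wt (α - 1 - 2 * b) x - 2 * c * wt (α - 1 - b) x + c ^ 2 * wt (α - 1) x := by
      intro x
      have e1 := wt_test_B α b x
      have e2 : wt (α - 1) x * wt (-b) x = wt (α - 1 - b) x := by
        rw [wt_mul]; congr 1
      simp only [hφ]
      rw [← e1, ← e2]; ring
    have hB : Integrable (fun x => wt (α - 1) x * φ x ^ 2) := by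
      simp_rw [eB]
      exact (hI.sub (hmb.const_mul _)).add (hw.const_mul _)
    have hBval : B α φ = I - mb ^ 2 / m0 := by
      unfold B
      simp_rw [eB]
      have hs : Integrable (fun x : E n => wt (α - 1 - 2 * b) x - 2 * c * wt (α - 1 - b) x) :=
        hI.sub (hmb.const_mul _)
      rw [integral_add hs (hw.const_mul _),
        integral_sub hI (hmb.const_mul _), integral_const_mul, integral_const_mul,
        ← hIdef, ← hmbdef, ← hm0, hc]
      field_simp
      ring
    have hmean : ∫ x, wt (α - 1) x * φ x = 0 := by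
      have e1 : (fun x : E n => wt (α - 1) x * φ x) =
          fun x => wt (α - 1 - b) x - c * wt (α - 1) x := by
        funext x
        have e2 : wt (α - 1) x * wt (-b) x = wt (α - 1 - b) x := by
          rw [wt_mul]; congr 1
        simp only [hφ]
        rw [← e2]; ring
      rw [e1, integral_sub hmb (hw.const_mul _), integral_const_mul, ← hmbdef, ← hm0, hc]
      field_simp
      ring
    have hAle : A α φ ≤ 4 * b ^ 2 * I := by
      unfold A
      rw [hIdef, ← integral_const_mul]
      refine integral_mono hA (hI.const_mul _) fun x => ?_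
      simp only
      rw [hdφ, wt_test_A]
      have hwx := wt_pos (α - 2 - 2 * b) x
      have e1 : wt (α - 1 - 2 * b) x = (1 + ‖x‖ ^ 2) * wt (α - 2 - 2 * b) x := by
        rw [← wt_succ]; congr 1; ring
      rw [e1]
      have h2 : 0 ≤ 4 * b ^ 2 * wt (α - 2 - 2 * b) x := by positivity
      nlinarith
    have key : best n α * B α φ ≤ A α φ := by
      by_cases hpos : 0 < B α φ
      · have h1 := hUP n α φ hn hα hφC hA hB hmean hpos
        rwa [le_div_iff₀ hpos] at h1
      · have h1 : B α φ ≤ 0 := not_lt.mp hpos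
        exact (mul_nonpos_of_nonneg_of_nonpos hbest0 h1).trans (A_nonneg _ _)
    rw [hBval] at key
    have h3 : mb ^ 2 / m0 ≤ m ^ 2 / m0 := by
      apply div_le_div_of_nonneg_right _ hm0pos.le
      exact pow_le_pow_left₀ hmb0 hmbm 2
    have h4 := mul_le_mul_of_nonneg_left h3 hbest0
    nlinarith
  -- suppose the bound fails
  have goal : best n α ≤ T' ^ 2 / 4 := by
    by_contra hcon
    push Not at hcon
    set K : ℝ := best n α * (m ^ 2 / m0) / (best n α - T' ^ 2 / 4) with hK
    have hden : 0 < best n α - T' ^ 2 / 4 := by linarith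
    have bound : ∀ b : ℝ, -T' / 4 < b → b < 0 → (∫ x : E n, wt (α - 1 - 2 * b) x) ≤ K := by
      intro b hb1 hb2
      have h1 := main b hb1
      have hI0 : 0 ≤ ∫ x : E n, wt (α - 1 - 2 * b) x := integral_nonneg fun x => (wt_pos _ x).le
      rw [hK, le_div_iff₀ hden]
      have h2 : 4 * b ^ 2 ≤ T' ^ 2 / 4 := by nlinarith
      nlinarith
    -- the sequence `b k`
    set b : ℕ → ℝ := fun k => -T' / 4 + T' / 4 * (1 / ((k:ℝ) + 2)) with hb
    have hbk : ∀ k, -T' / 4 < b k ∧ b k < 0 := by
      intro k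
      have hk : (0:ℝ) ≤ k := Nat.cast_nonneg k
      have h1 : (0:ℝ) < 1 / ((k:ℝ) + 2) := by positivity
      have h2 : 1 / ((k:ℝ) + 2) < 1 := by
        rw [div_lt_one (by positivity)]; linarith
      constructor
      · simp only [hb]; nlinarith
      · simp only [hb]; nlinarith
    have hblim : Tendsto b atTop (𝓝 (-T' / 4)) := by
      have h1 : Tendsto (fun k : ℕ => 1 / ((k:ℝ) + 2)) atTop (𝓝 0) := by
        have h2 := tendsto_one_div_add_atTop_nhds_zero_nat (𝕜 := ℝ)
        have h3 := h2.comp (tendsto_add_atTop_nat 1)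
        refine h3.congr fun k => ?_
        simp only [Function.comp]
        push_cast
        congr 1; ring
      have h4 := (h1.const_mul (T' / 4)).const_add (-T' / 4)
      simpa only [mul_zero, add_zero] using h4
    apply not_integrable_wt hn
    refine ⟨(wt_continuous _).aestronglyMeasurable, ?_⟩
    rw [hasFiniteIntegral_iff_ofReal (Eventually.of_forall fun x => (wt_pos _ x).le)]
    have h1 : ∫⁻ x : E n, ENNReal.ofReal (wt (-(n:ℝ) / 2) x) ≤
        liminf (fun k => ∫⁻ x : E n, ENNReal.ofReal (wt (α - 1 - 2 * b k) x)) atTop := by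
      have h2 : ∀ x : E n, liminf (fun k => ENNReal.ofReal (wt (α - 1 - 2 * b k) x)) atTop =
          ENNReal.ofReal (wt (-(n:ℝ) / 2) x) := by
        intro x
        apply Tendsto.liminf_eq
        apply ENNReal.tendsto_ofReal
        unfold wt
        have h3 : Tendsto (fun k => α - 1 - 2 * b k) atTop (𝓝 (-(n:ℝ) / 2)) := by
          have h4 := (hblim.const_mul 2).const_sub (α - 1)
          have h5 : α - 1 - 2 * (-T' / 4) = -(n:ℝ) / 2 := by rw [hT]; ring
          rwa [h5] at h4
        exact (Real.continuousAt_const_rpow (one_add_pos x).ne').tendsto.comp h3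
      calc ∫⁻ x : E n, ENNReal.ofReal (wt (-(n:ℝ) / 2) x)
          = ∫⁻ x : E n, liminf (fun k => ENNReal.ofReal (wt (α - 1 - 2 * b k) x)) atTop := by
            refine lintegral_congr fun x => ?_
            rw [h2]
        _ ≤ _ := lintegral_liminf_le fun k =>
            ((wt_continuous _).measurable).ennreal_ofReal
    have h2 : ∀ k, ∫⁻ x : E n, ENNReal.ofReal (wt (α - 1 - 2 * b k) x) ≤ ENNReal.ofReal K := by
      intro k
      have hI : Integrable (wt (α - 1 - 2 * b k) : E n → ℝ) :=
        wt_integrable (by have := (hbk k).1; rw [hT] at this; linarith)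
      rw [← ofReal_integral_eq_lintegral_ofReal hI (Eventually.of_forall fun x => (wt_pos _ x).le)]
      exact ENNReal.ofReal_le_ofReal (bound _ (hbk k).1 (hbk k).2)
    have h3 : liminf (fun k => ∫⁻ x : E n, ENNReal.ofReal (wt (α - 1 - 2 * b k) x)) atTop ≤
        ENNReal.ofReal K := by
      calc liminf (fun k => ∫⁻ x : E n, ENNReal.ofReal (wt (α - 1 - 2 * b k) x)) atTop
          ≤ liminf (fun _ : ℕ => ENNReal.ofReal K) atTop :=
            liminf_le_liminf (Eventually.of_forall h2)
        _ = ENNReal.ofReal K := by simp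
    exact (h1.trans h3).trans_lt ENNReal.ofReal_lt_top
  refine goal.trans (le_of_eq ?_)
  rw [hT]; ring

end

end Pool.Agent.R662.WH
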