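import Pool.Agent.R662.WH.Stm

/-!
# UP: the upper bound principle with the mean zero constraint (helper746)
-/

set_option autoImplicit false

open MeasureTheory Set Filter Topology
open scoped ContDiff

namespace Pool.Agent.R662.WH

noncomputable section

open Pool.Agent.R256.HW

theorem UP : S_UP := by
  intro n α φ hn hα hφ hA hB hmean hpos
  have hn' : (3:ℝ) ≤ n := by exact_mod_cast hn
  have hφ1 : ContDiff ℝ 1 φ := hφ.of_le (by exact_mod_cast le_top)
  have hbC : ContDiff ℝ ∞ (bmp n) := bmp_contDiff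
  have hb1 : ContDiff ℝ 1 (bmp n) := hbC.of_le (by exact_mod_cast le_top)
  have hbc : HasCompactSupport (bmp n) := (bmp n).hasCompactSupport
  have hw : Integrable (wt (α - 1) : E n → ℝ) := wt_integrable (by linarith)
  have hwc : Continuous (wt (α - 1) : E n → ℝ) := wt_continuous _
  -- integrability of `w * bmp` and of `w * cut`
  have hintb : Integrable fun x : E n => wt (α - 1) x * bmp n x :=
    (hwc.mul hbC.continuous).integrable_of_hasCompactSupport hbc.mul_left
  have hintc : ∀ k, Integrable fun x : E n => wt (α - 1) x * cut φ k x := fun k =>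
    (hwc.mul (cut_contDiff (m := 1) hφ1 k).continuous).integrable_of_hasCompactSupport
      (cut_support φ k).mul_left
  -- the positive number `∫ w bmp`
  set M0 : ℝ := ∫ x : E n, wt (α - 1) x * bmp n x with hM0
  have hM0pos : 0 < M0 := by
    rw [hM0]
    refine (integral_pos_iff_support_of_nonneg
      (fun x => mul_nonneg (wt_pos _ x).le (bmp n).nonneg) hintb).mpr ?_
    refine ((hwc.mul hbC.continuous).isOpen_support).measure_pos _ ⟨0, ?_⟩
    rw [Function.mem_support]
    have h2 : bmp n (0 : E n) = 1 := (bmp n).one_of_mem_closedBall (by simp [(bmp n).rIn_pos.le])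
    have h3 : wt (α - 1) (0 : E n) * bmp n (0 : E n) = wt (α - 1) (0 : E n) := by
      rw [h2, mul_one]
    show wt (α - 1) (0 : E n) * bmp n (0 : E n) ≠ 0
    rw [h3]
    exact (wt_pos _ _).ne'
  set d : ℕ → ℝ := fun k => (∫ x : E n, wt (α - 1) x * cut φ k x) / M0 with hd
  have hd0 : Tendsto d atTop (𝓝 0) := by
    have h1 : Tendsto (fun k => ∫ x : E n, wt (α - 1) x * cut φ k x) atTop
        (𝓝 (∫ x : E n, wt (α - 1) x * φ x)) := by
      refine tendsto_integral_of_dominated_convergence
        (fun x => (wt (α - 1) x + wt (α - 1) x * φ x ^ 2) / 2) ?_ ((hw.add hB).div_const 2) ?_ ?_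
      · intro k
        exact (hintc k).aestronglyMeasurable
      · intro k
        refine Eventually.of_forall fun x => ?_
        have hwx := wt_pos (α - 1) x
        rw [Real.norm_eq_abs, abs_mul, abs_of_pos hwx]
        have h2 := cut_abs_le φ k x
        have h3 : |cut φ k x| ≤ (1 + φ x ^ 2) / 2 := by
          rw [abs_le]
          constructor <;> nlinarith [sq_nonneg (cut φ k x - 1), sq_nonneg (cut φ k x + 1)]
        calc wt (α - 1) x * |cut φ k x| ≤ wt (α - 1) x * ((1 + φ x ^ 2) / 2) :=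
              mul_le_mul_of_nonneg_left h3 hwx.le
          _ = _ := by ring
      · refine Eventually.of_forall fun x => ?_
        exact (tendsto_cut φ x).const_mul _
    rw [hmean] at h1
    simpa using h1.div_const M0
  obtain ⟨D, hD⟩ : ∃ D : ℝ, ∀ k, |d k| ≤ D := by
    obtain ⟨D, hD⟩ := (Metric.isBounded_range_of_tendsto d hd0).exists_norm_le
    exact ⟨D, fun k => hD _ ⟨k, rfl⟩⟩
  have hD2 : ∀ k, d k ^ 2 ≤ D ^ 2 := fun k => by
    rw [← sq_abs]
    exact pow_le_pow_left₀ (abs_nonneg _) (hD k) 2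
  set u : ℕ → E n → ℝ := fun k x => cut φ k x - d k * bmp n x with hu
  have huC : ∀ k, ContDiff ℝ ∞ (u k) := fun k =>
    (cut_contDiff hφ k).sub (contDiff_const.mul hbC)
  have huc : ∀ k, HasCompactSupport (u k) := fun k => (cut_support φ k).sub hbc.mul_left
  have hdu : ∀ k x, fderiv ℝ (u k) x = fderiv ℝ (cut φ k) x - d k • fderiv ℝ (bmp n) x := by
    intro k x
    have h1 : DifferentiableAt ℝ (cut φ k) x :=
      ((cut_contDiff (m := 1) hφ1 k).differentiable (by norm_num)) x
    have h2 : DifferentiableAt ℝ (fun x => d k * bmp n x) x :=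
      ((hb1.differentiable (by norm_num)) x).const_mul _
    have h3 : fderiv ℝ (u k) x = fderiv ℝ (cut φ k) x - fderiv ℝ (fun x => d k * bmp n x) x :=
      fderiv_fun_sub h1 h2
    rw [h3, fderiv_const_mul ((hb1.differentiable (by norm_num)) x)]
  have hmean_u : ∀ k, ∫ x, wt (α - 1) x * u k x = 0 := by
    intro k
    have h1 : (fun x : E n => wt (α - 1) x * u k x) =
        fun x => wt (α - 1) x * cut φ k x - d k * (wt (α - 1) x * bmp n x) := by
      funext x; simp only [hu]; ring
    rw [h1, integral_sub (hintc k) (hintb.const_mul _), integral_const_mul, ← hM0]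
    simp only [hd]
    field_simp
    ring
  have limA : Tendsto (fun k => A α (u k)) atTop (𝓝 (A α φ)) := by
    unfold A
    refine tendsto_integral_of_dominated_convergence
      (fun x => 2 * (2 * (wt α x * ‖fderiv ℝ φ x‖ ^ 2) + 2 * MM n * (wt (α - 1) x * φ x ^ 2)) +
        2 * D ^ 2 * (wt α x * ‖fderiv ℝ (bmp n) x‖ ^ 2)) ?_ ?_ ?_ ?_
    · intro k
      exact (intA α ((huC k).of_le (by exact_mod_cast le_top)) (huc k)).aestronglyMeasurable
    · exact (((hA.const_mul _).add (hB.const_mul _)).const_mul _).add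
        ((intA α hb1 hbc).const_mul _)
    · intro k
      refine Eventually.of_forall fun x => ?_
      have hwx := wt_pos α x
      rw [Real.norm_eq_abs, abs_of_nonneg (mul_nonneg hwx.le (sq_nonneg _)), hdu]
      have h1 : ‖fderiv ℝ (cut φ k) x - d k • fderiv ℝ (bmp n) x‖ ≤
          ‖fderiv ℝ (cut φ k) x‖ + |d k| * ‖fderiv ℝ (bmp n) x‖ := by
        refine (norm_sub_le _ _).trans ?_
        rw [norm_smul, Real.norm_eq_abs]
      have h2 : ‖fderiv ℝ (cut φ k) x - d k • fderiv ℝ (bmp n) x‖ ^ 2 ≤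
          2 * ‖fderiv ℝ (cut φ k) x‖ ^ 2 + 2 * D ^ 2 * ‖fderiv ℝ (bmp n) x‖ ^ 2 := by
        have h3 := pow_le_pow_left₀ (norm_nonneg _) h1 2
        have h4 : (|d k| * ‖fderiv ℝ (bmp n) x‖) ^ 2 ≤ D ^ 2 * ‖fderiv ℝ (bmp n) x‖ ^ 2 := by
          rw [mul_pow, sq_abs]
          exact mul_le_mul_of_nonneg_right (hD2 k) (sq_nonneg _)
        nlinarith [sq_nonneg (‖fderiv ℝ (cut φ k) x‖ - |d k| * ‖fderiv ℝ (bmp n) x‖)]
      have h5 := mul_le_mul_of_nonneg_left h2 hwx.le
      have h6 := norm_cut_le hφ1 α k x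
      calc wt α x * ‖fderiv ℝ (cut φ k) x - d k • fderiv ℝ (bmp n) x‖ ^ 2
          ≤ wt α x * (2 * ‖fderiv ℝ (cut φ k) x‖ ^ 2 + 2 * D ^ 2 * ‖fderiv ℝ (bmp n) x‖ ^ 2) := h5
        _ = 2 * (wt α x * ‖fderiv ℝ (cut φ k) x‖ ^ 2) +
            2 * D ^ 2 * (wt α x * ‖fderiv ℝ (bmp n) x‖ ^ 2) := by ring
        _ ≤ _ := by linarith
    · refine Eventually.of_forall fun x => ?_
      have h1 : Tendsto (fun k => fderiv ℝ (u k) x) atTop (𝓝 (fderiv ℝ φ x)) := by
        have h2 := (tendsto_dcut hφ1 x).sub (hd0.smul_const (fderiv ℝ (bmp n) x))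
        simp only [zero_smul, sub_zero] at h2
        simpa only [hdu] using h2
      exact ((h1.norm).pow 2).const_mul _
  have limB : Tendsto (fun k => B α (u k)) atTop (𝓝 (B α φ)) := by
    unfold B
    refine tendsto_integral_of_dominated_convergence
      (fun x => 2 * (wt (α - 1) x * φ x ^ 2) + 2 * D ^ 2 * (wt (α - 1) x * bmp n x ^ 2))
      ?_ ?_ ?_ ?_
    · intro k
      exact (intB (α - 1) ((huC k).of_le (by exact_mod_cast le_top)) (huc k)).aestronglyMeasurable
    · exact (hB.const_mul _).add ((intB (α - 1) hb1 hbc).const_mul _)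
    · intro k
      refine Eventually.of_forall fun x => ?_
      have hwx := wt_pos (α - 1) x
      rw [Real.norm_eq_abs, abs_of_nonneg (mul_nonneg hwx.le (sq_nonneg _))]
      have h1 : u k x ^ 2 ≤ 2 * φ x ^ 2 + 2 * D ^ 2 * bmp n x ^ 2 := by
        have h2 := cut_abs_le φ k x
        have h3 : d k ^ 2 * bmp n x ^ 2 ≤ D ^ 2 * bmp n x ^ 2 :=
          mul_le_mul_of_nonneg_right (hD2 k) (sq_nonneg _)
        simp only [hu]
        nlinarith [sq_nonneg (cut φ k x + d k * bmp n x)]
      have h5 := mul_le_mul_of_nonneg_left h1 hwx.le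
      linarith
    · refine Eventually.of_forall fun x => ?_
      have h1 : Tendsto (fun k => u k x) atTop (𝓝 (φ x)) := by
        have h2 := (tendsto_cut φ x).sub (hd0.mul_const (bmp n x))
        simpa only [zero_mul, sub_zero] using h2
      exact (h1.pow 2).const_mul _
  have h1 := limA.div limB hpos.ne'
  have h2 : ∀ᶠ k in atTop, 0 < B α (u k) := limB.eventually (lt_mem_nhds hpos)
  refine ge_of_tendsto h1 ?_
  filter_upwards [h2] with k hk
  apply csInf_le (bdd n α)
  refine ⟨u k, ⟨huC k, huc k, ?_, fun _ => hmean_u k⟩, rfl⟩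
  intro h0
  rw [h0] at hk
  simp [B] at hk

end

end Pool.Agent.R662.WH
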