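import Pool.Agent.R662.WH.LB3
import Pool.Agent.R662.WH.L1
import Pool.Agent.R662.WH.L2
import Pool.Agent.R662.WH.L3
import Pool.Agent.R662.WH.UP
import Pool.Agent.R662.WH.U3
import Pool.Agent.R662.WH.U12

set_option autoImplicit false

open MeasureTheory Set Filter Topology
open scoped ContDiff

namespace Pool.Agent.R662.WH

noncomputable section

open Pool.Agent.R256.HW (E wt A B Adm best bmp bmp_contDiff wt_pos B_pos)

lemma LBfull : S_LB := LB L1 L2 L3

lemma bmp_even (n : ℕ) (x : E n) : bmp n (-x) = bmp n x := (bmp n).neg x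

/-- an odd test function -/
def odd0 (n : ℕ) (hn : 0 < n) (x : E n) : ℝ := x ⟨0, hn⟩ * bmp n x

lemma odd0_contDiff (n : ℕ) (hn : 0 < n) : ContDiff ℝ ∞ (odd0 n hn) := by
  unfold odd0
  refine ContDiff.mul ?_ bmp_contDiff
  exact (EuclideanSpace.proj (𝕜 := ℝ) (⟨0, hn⟩ : Fin n)).contDiff

lemma odd0_compact (n : ℕ) (hn : 0 < n) : HasCompactSupport (odd0 n hn) := by
  unfold odd0
  exact (bmp n).hasCompactSupport.mul_left

lemma odd0_neg (n : ℕ) (hn : 0 < n) (x : E n) : odd0 n hn (-x) = -odd0 n hn x := by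
  unfold odd0
  rw [bmp_even]
  simp

lemma odd0_ne (n : ℕ) (hn : 0 < n) : odd0 n hn ≠ 0 := by
  intro h
  have hr := (bmp n).rIn_pos
  set x : E n := EuclideanSpace.single (⟨0, hn⟩ : Fin n) ((bmp n).rIn) with hx
  have h2 : bmp n x = 1 := by
    apply (bmp n).one_of_mem_closedBall
    rw [mem_closedBall_iff_norm, hx]
    simp [abs_of_pos hr]
  have h3 := congrFun h x
  unfold odd0 at h3
  rw [h2, hx] at h3
  simp at h3
  linarith

lemma odd0_mean (n : ℕ) (hn : 0 < n) (γ : ℝ) : ∫ x, wt γ x * odd0 n hn x = 0 := by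
  have h := integral_neg_eq_self (fun x : E n => wt γ x * odd0 n hn x) volume
  have h2 : ∀ x : E n, wt γ (-x) * odd0 n hn (-x) = -(wt γ x * odd0 n hn x) := by
    intro x
    rw [odd0_neg]
    unfold wt
    rw [norm_neg]
    ring
  simp only [h2, integral_neg] at h
  linarith

theorem best_neg (n : ℕ) (hn : 3 ≤ n) (α : ℝ) (hα : α < -((n : ℝ) - 2) / 2) :
    best n α = Cneg n α := by
  apply le_antisymm
  · unfold Cneg
    split_ifs with h1 h2
    · exact U3 UP n α hn hα
    · exact (U12 UP).2 n α hn (by push Not at h1; linarith)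
    · exact (U12 UP).1 n α hn (by push Not at h2; linarith)
  · apply le_csInf
    · exact ⟨_, odd0 n (by omega), ⟨odd0_contDiff n _, odd0_compact n _, odd0_ne n _,
        fun _ => odd0_mean n _ _⟩, rfl⟩
    · rintro q ⟨u, ⟨hu, hc, h0, hm⟩, rfl⟩
      have hu1 : ContDiff ℝ 1 u := hu.of_le (by exact_mod_cast le_top)
      rw [le_div_iff₀ (B_pos α hu1 hc h0)]
      exact LBfull n α hn hα u hu hc (hm hα)

end

end Pool.Agent.R662.WH
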