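import Pool.Agent.R662.WH.Stm

/-!
# L3, part a: polar coordinates for products, smoothness of radial cut-offs times a function of the
direction
-/

set_option autoImplicit false

open MeasureTheory Set Filter Topology Metric
open scoped ContDiff

namespace Pool.Agent.R662.WH

noncomputable section

open Pool.Agent.R256.HW (E)

lemma sig_finite (n : ℕ) : IsFiniteMeasure (sig n) := by
  unfold sig; infer_instance

lemma prodPolar {n : ℕ} (hn : 1 ≤ n) (φ : ℝ → ℝ) (ψ : E n → ℝ) :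
    ∫ x : E n, φ ‖x‖ * ψ (‖x‖⁻¹ • x) =
      (∫ r in Ioi (0 : ℝ), r ^ (n - 1) * φ r) * ∫ θ : Sph n, ψ (θ : E n) ∂(sig n) := by
  have : Nonempty (Fin n) := ⟨⟨0, hn⟩⟩
  have : Nontrivial (E n) := inferInstance
  have hfin := sig_finite n
  have hd : Module.finrank ℝ (E n) = n := by simp
  have e1 : ∫ x : E n, φ ‖x‖ * ψ (‖x‖⁻¹ • x) =
      ∫ x : ({(0 : E n)}ᶜ : Set (E n)), φ ‖x.1‖ * ψ (‖x.1‖⁻¹ • x.1)
        ∂((volume : Measure (E n)).comap (↑)) := by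
    rw [integral_subtype_comap (measurableSet_singleton _).compl
      fun x : E n ↦ φ ‖x‖ * ψ (‖x‖⁻¹ • x), restrict_compl_singleton]
  have e2 : ∫ x : ({(0 : E n)}ᶜ : Set (E n)), φ ‖x.1‖ * ψ (‖x.1‖⁻¹ • x.1)
        ∂((volume : Measure (E n)).comap (↑)) =
      ∫ p : Sph n × Ioi (0 : ℝ), ψ p.1 * φ p.2
        ∂((sig n).prod (Measure.volumeIoiPow (Module.finrank ℝ (E n) - 1))) := by
    have h := (volume : Measure (E n)).measurePreserving_homeomorphUnitSphereProd.integral_comp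
        (Homeomorph.measurableEmbedding _)
        (fun p : Sph n × Ioi (0 : ℝ) => ψ p.1 * φ p.2)
    unfold sig
    rw [← h]
    refine integral_congr_ae (Eventually.of_forall fun x => ?_)
    simp [mul_comm]
  have e3 : ∫ p : Sph n × Ioi (0 : ℝ), ψ p.1 * φ p.2
        ∂((sig n).prod (Measure.volumeIoiPow (Module.finrank ℝ (E n) - 1))) =
      (∫ θ : Sph n, ψ (θ : E n) ∂(sig n)) *
        ∫ r : Ioi (0 : ℝ), φ r ∂(Measure.volumeIoiPow (Module.finrank ℝ (E n) - 1)) :=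
    integral_prod_mul (fun θ : Sph n => ψ (θ : E n)) (fun r : Ioi (0 : ℝ) => φ r)
  have e4 : ∫ r : Ioi (0 : ℝ), φ r ∂(Measure.volumeIoiPow (Module.finrank ℝ (E n) - 1)) =
      ∫ r in Ioi (0 : ℝ), r ^ (n - 1) * φ r := by
    rw [hd]
    simp only [Measure.volumeIoiPow, ENNReal.ofReal]
    rw [integral_withDensity_eq_integral_smul,
      integral_subtype_comap measurableSet_Ioi fun a ↦ Real.toNNReal (a ^ (n - 1)) • φ a,
      setIntegral_congr_fun measurableSet_Ioi fun x hx ↦ ?_]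
    · rw [NNReal.smul_def, Real.coe_toNNReal _ (pow_nonneg hx.out.le _), smul_eq_mul]
    · exact (measurable_subtype_coe.pow_const _).real_toNNReal
  rw [e1, e2, e3, e4, mul_comm]

/-- a function of the radius vanishing near `0` times a function of the direction -/
lemma contDiff_radial {n : ℕ} {m : WithTop ℕ∞} {q : ℝ → ℝ} {ψ : E n → ℝ} {δ : ℝ} (hδ : 0 < δ)
    (hq : ContDiff ℝ m q) (hψ : ContDiff ℝ m ψ) (h0 : ∀ r ≤ δ, q r = 0) :
    ContDiff ℝ m fun x : E n => q ‖x‖ * ψ (‖x‖⁻¹ • x) := by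
  rw [contDiff_iff_contDiffAt]
  intro x
  by_cases hx : x = 0
  · subst hx
    have h1 : (fun x : E n => q ‖x‖ * ψ (‖x‖⁻¹ • x)) =ᶠ[𝓝 0] fun _ => 0 := by
      filter_upwards [Metric.ball_mem_nhds (0 : E n) hδ] with y hy
      rw [h0 _ (by simpa using (mem_ball_zero_iff.1 hy).le), zero_mul]
    exact contDiffAt_const.congr_of_eventuallyEq h1
  · have hn : ContDiffAt ℝ m (fun x : E n => ‖x‖) x := contDiffAt_norm ℝ hx
    refine (hq.contDiffAt.comp x hn).mul (hψ.contDiffAt.comp x ?_)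
    exact (hn.inv (norm_ne_zero_iff.2 hx)).smul contDiffAt_id

lemma hasFDerivAt_norm' {n : ℕ} {x : E n} (hx : x ≠ 0) :
    HasFDerivAt (fun y : E n => ‖y‖) (innerSL ℝ (‖x‖⁻¹ • x)) x := by
  have hr : 0 < ‖x‖ := norm_pos_iff.2 hx
  have h1 : HasFDerivAt (fun y : E n => ‖y‖ ^ 2) (2 • innerSL ℝ x) x :=
    (hasStrictFDerivAt_norm_sq x).hasFDerivAt
  have h2 := h1.sqrt (by positivity)
  have h3 : (fun y : E n => √(‖y‖ ^ 2)) = fun y => ‖y‖ := by
    funext y; exact Real.sqrt_sq (norm_nonneg _)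
  rw [h3] at h2
  refine h2.congr_fderiv ?_
  ext v
  rw [Real.sqrt_sq hr.le]
  simp
  field_simp

lemma hasFDerivAt_dir {n : ℕ} {x : E n} (hx : x ≠ 0) :
    HasFDerivAt (fun y : E n => ‖y‖⁻¹ • y)
      (‖x‖⁻¹ • (ContinuousLinearMap.id ℝ (E n) -
        (innerSL ℝ (‖x‖⁻¹ • x)).smulRight (‖x‖⁻¹ • x))) x := by
  have hr : 0 < ‖x‖ := norm_pos_iff.2 hx
  have h0 := (hasDerivAt_inv hr.ne').comp_hasFDerivAt x (hasFDerivAt_norm' hx)
  have h1 := h0.smul (hasFDerivAt_id x)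
  refine h1.congr_fderiv ?_
  ext v i
  simp
  field_simp
  ring

/-- the tangential part of the gradient, squared -/
def tau {n : ℕ} (g : E n → ℝ) (x : E n) : ℝ := ‖fderiv ℝ g x‖ ^ 2 - (fderiv ℝ g x x) ^ 2

lemma norm_sq_comb {n : ℕ} (M : E n →L[ℝ] ℝ) {θ : E n} (hθ : ‖θ‖ = 1) (a b : ℝ) :
    ‖a • innerSL ℝ θ + b • (M - M θ • innerSL ℝ θ)‖ ^ 2 =
      a ^ 2 + b ^ 2 * (‖M‖ ^ 2 - M θ ^ 2) := by
  set m : E n := (InnerProductSpace.toDual ℝ (E n)).symm M with hm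
  have hM : M = innerSL ℝ m := by
    ext v
    rw [hm, innerSL_apply_apply, InnerProductSpace.toDual_symm_apply]
  have e1 : a • innerSL ℝ θ + b • (M - M θ • innerSL ℝ θ) =
      innerSL ℝ (a • θ + b • (m - inner ℝ m θ • θ)) := by
    rw [hM]
    ext v
    simp
  rw [e1, innerSL_apply_norm]
  have hn : ‖M‖ = ‖m‖ := by rw [hM, innerSL_apply_norm]
  have hθm : M θ = inner ℝ m θ := by rw [hM, innerSL_apply_apply]
  rw [hn, hθm]
  have hθ2 : inner ℝ θ θ = (1 : ℝ) := by rw [real_inner_self_eq_norm_sq, hθ]; norm_num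
  rw [← real_inner_self_eq_norm_sq, ← real_inner_self_eq_norm_sq]
  simp only [inner_add_left, inner_add_right, inner_smul_left, inner_smul_right, inner_sub_left,
    inner_sub_right, hθ2, real_inner_comm θ m, RCLike.conj_to_real]
  ring

lemma fderiv_radial {n : ℕ} {ρ : ℝ → ℝ} {g : E n → ℝ} (hρ : Differentiable ℝ ρ)
    (hg : Differentiable ℝ g) {x : E n} (hx : x ≠ 0) :
    ‖fderiv ℝ (fun y : E n => ρ ‖y‖ * g (‖y‖⁻¹ • y)) x‖ ^ 2 =
      deriv ρ ‖x‖ ^ 2 * g (‖x‖⁻¹ • x) ^ 2 + (ρ ‖x‖ / ‖x‖) ^ 2 * tau g (‖x‖⁻¹ • x) := by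
  have hr : 0 < ‖x‖ := norm_pos_iff.2 hx
  have hθ : ‖‖x‖⁻¹ • x‖ = 1 := by
    rw [norm_smul, norm_inv, norm_norm, inv_mul_cancel₀ hr.ne']
  set θ := ‖x‖⁻¹ • x with hθd
  have h1 := (hρ ‖x‖).hasDerivAt.comp_hasFDerivAt x (hasFDerivAt_norm' hx)
  have h2 : HasFDerivAt (fun y : E n => g (‖y‖⁻¹ • y)) ((fderiv ℝ g θ).comp
      (‖x‖⁻¹ • (ContinuousLinearMap.id ℝ (E n) -
        (innerSL ℝ (‖x‖⁻¹ • x)).smulRight (‖x‖⁻¹ • x)))) x :=
    HasFDerivAt.comp (g := g) (f := fun y : E n => ‖y‖⁻¹ • y) x (hg θ).hasFDerivAt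
      (hasFDerivAt_dir hx)
  have h3 := h1.mul h2
  have h4 : HasFDerivAt (fun y : E n => ρ ‖y‖ * g (‖y‖⁻¹ • y))
      ((deriv ρ ‖x‖ * g θ) • innerSL ℝ θ +
        (ρ ‖x‖ / ‖x‖) • (fderiv ℝ g θ - fderiv ℝ g θ θ • innerSL ℝ θ)) x := by
    refine h3.congr_fderiv ?_
    ext v
    simp [← hθd]
    ring
  rw [h4.fderiv, norm_sq_comb _ hθ, tau]
  ring

end

end Pool.Agent.R662.WH
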