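import Pool.Agent.R662.WH.POL

set_option autoImplicit false

open MeasureTheory Set Filter Topology
open scoped ContDiff

namespace Pool.Agent.R662.WH

noncomputable section

open Pool.Agent.R256.HW (E wt A B Adm best)

variable {n : ℕ}

/-! ### integrals over the sphere depending on a parameter -/

theorem sph_norm (θ : Sph n) : ‖(θ : E n)‖ = 1 := by
  have := θ.2
  rwa [mem_sphere_zero_iff_norm] at this

theorem cont_param {Φ : ℝ → Sph n → ℝ} (h : Continuous (Function.uncurry Φ)) :
    Continuous fun r => ∫ θ, Φ r θ ∂(sig n) := by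
  have h1 := continuous_parametric_integral_of_continuous (μ := sig n) h isCompact_univ
  simpa using h1

theorem cont_int {φ : Sph n → ℝ} (h : Continuous φ) : Integrable φ (sig n) := by
  have := h.continuousOn.integrableOn_compact (μ := sig n) isCompact_univ
  simpa using this

theorem prod_int {Φ : ℝ → Sph n → ℝ} (h : Continuous (Function.uncurry Φ)) {R : ℝ}
    (hR : ∀ r θ, R < |r| → Φ r θ = 0) :
    Integrable (Function.uncurry Φ) ((volume.restrict (Ioi (0 : ℝ))).prod (sig n)) := by
  have hc : HasCompactSupport (Function.uncurry Φ) := by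
    refine HasCompactSupport.intro (K := Icc (-R) R ×ˢ (univ : Set (Sph n)))
      (isCompact_Icc.prod isCompact_univ) ?_
    rintro ⟨r, θ⟩ hrθ
    apply hR
    simp only [mem_prod, mem_Icc, mem_univ, and_true, not_and_or, not_le] at hrθ
    rcases hrθ with h1 | h1
    · have := neg_le_abs r
      linarith
    · exact lt_of_lt_of_le h1 (le_abs_self r)
  exact h.integrable_of_hasCompactSupport hc

theorem prod_swap {Φ : ℝ → Sph n → ℝ} (h : Continuous (Function.uncurry Φ)) {R : ℝ}
    (hR : ∀ r θ, R < |r| → Φ r θ = 0) :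
    ∫ r in Ioi (0 : ℝ), ∫ θ, Φ r θ ∂(sig n) = ∫ θ, (∫ r in Ioi (0 : ℝ), Φ r θ) ∂(sig n) :=
  integral_integral_swap (prod_int h hR)

theorem int_left {Φ : ℝ → Sph n → ℝ} (h : Continuous (Function.uncurry Φ)) {R : ℝ}
    (hR : ∀ r θ, R < |r| → Φ r θ = 0) :
    IntegrableOn (fun r => ∫ θ, Φ r θ ∂(sig n)) (Ioi (0 : ℝ)) :=
  (prod_int h hR).integral_prod_left

theorem int_right {Φ : ℝ → Sph n → ℝ} (h : Continuous (Function.uncurry Φ)) {R : ℝ}
    (hR : ∀ r θ, R < |r| → Φ r θ = 0) :
    Integrable (fun θ => ∫ r in Ioi (0 : ℝ), Φ r θ) (sig n) :=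
  (prod_int h hR).integral_prod_right

/-! ### the spherical mean -/

/-- the total mass of the sphere -/
def tot (n : ℕ) : ℝ := (sig n).real univ

theorem tot_pos (hn : 1 ≤ n) : 0 < tot n := by
  have : Nonempty (Fin n) := ⟨⟨0, hn⟩⟩
  have : Nontrivial (E n) := inferInstance
  unfold tot
  refine ENNReal.toReal_pos ?_ (measure_ne_top _ _)
  rw [ne_eq, Measure.measure_univ_eq_zero]
  exact Measure.toSphere_ne_zero _

/-- the spherical mean -/
def sm (u : E n → ℝ) (r : ℝ) : ℝ := (∫ θ : Sph n, u (r • (θ : E n)) ∂(sig n)) / tot n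

/-- the mean of the radial derivative -/
def sd (u : E n → ℝ) (r : ℝ) : ℝ :=
  (∫ θ : Sph n, fderiv ℝ u (r • (θ : E n)) (θ : E n) ∂(sig n)) / tot n

theorem ray_deriv {u : E n → ℝ} (hu : ContDiff ℝ 1 u) (θ : E n) (r : ℝ) :
    HasDerivAt (fun r : ℝ => u (r • θ)) (fderiv ℝ u (r • θ) θ) r := by
  have h1 : HasDerivAt (fun r : ℝ => r • θ) θ r := by
    simpa using (hasDerivAt_id r).smul_const θ
  exact ((hu.differentiable (by norm_num)) _).hasFDerivAt.comp_hasDerivAt r h1

theorem cont_ray : Continuous fun p : ℝ × Sph n => p.1 • (p.2 : E n) :=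
  continuous_fst.smul (continuous_subtype_val.comp continuous_snd)

theorem cont_u {u : E n → ℝ} (hu : Continuous u) :
    Continuous (Function.uncurry fun (r : ℝ) (θ : Sph n) => u (r • (θ : E n))) :=
  hu.comp cont_ray

theorem cont_d {u : E n → ℝ} (hu : ContDiff ℝ 1 u) :
    Continuous (Function.uncurry fun (r : ℝ) (θ : Sph n) =>
      fderiv ℝ u (r • (θ : E n)) (θ : E n)) := by
  have hd : Continuous (fderiv ℝ u) := hu.continuous_fderiv (by norm_num)
  exact (hd.comp cont_ray).clm_apply (continuous_subtype_val.comp continuous_snd)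

theorem hasDerivAt_sm {u : E n → ℝ} (hu : ContDiff ℝ 1 u) (hc : HasCompactSupport u) (r : ℝ) :
    HasDerivAt (sm u) (sd u r) r := by
  have hd : Continuous (fderiv ℝ u) := hu.continuous_fderiv (by norm_num)
  obtain ⟨M, hM⟩ := (hd.norm).bounded_above_of_compact_support (hc.fderiv ℝ).norm
  have h := hasDerivAt_integral_of_dominated_loc_of_deriv_le (μ := sig n) (x₀ := r) (s := univ)
    (F := fun r θ => u (r • (θ : E n))) (F' := fun r θ => fderiv ℝ u (r • (θ : E n)) (θ : E n))
    (bound := fun _ => M) univ_mem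
    (Eventually.of_forall fun x =>
      ((cont_u hu.continuous).comp (Continuous.prodMk continuous_const continuous_id)).aestronglyMeasurable)
    (cont_int ((cont_u hu.continuous).comp (Continuous.prodMk continuous_const continuous_id)))
    (((cont_d hu).comp (Continuous.prodMk continuous_const continuous_id)).aestronglyMeasurable)
    (Eventually.of_forall fun θ x _ => ?_) (integrable_const _)
    (Eventually.of_forall fun θ x _ => ray_deriv hu _ x)
  · exact h.2.div_const _
  · refine (ContinuousLinearMap.le_opNorm _ _).trans ?_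
    rw [sph_norm, mul_one]
    have := hM (x • (θ : E n))
    rwa [norm_norm] at this

theorem cont_sd {u : E n → ℝ} (hu : ContDiff ℝ 1 u) : Continuous (sd u) :=
  (cont_param (cont_d hu)).div_const _

theorem deriv_sm {u : E n → ℝ} (hu : ContDiff ℝ 1 u) (hc : HasCompactSupport u) :
    deriv (sm u) = sd u := by
  ext r
  exact (hasDerivAt_sm hu hc r).deriv

theorem sm_contDiff {u : E n → ℝ} (hu : ContDiff ℝ 1 u) (hc : HasCompactSupport u) :
    ContDiff ℝ 1 (sm u) := by
  rw [contDiff_one_iff_deriv]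
  refine ⟨fun r => (hasDerivAt_sm hu hc r).differentiableAt, ?_⟩
  rw [deriv_sm hu hc]
  exact cont_sd hu

/-- a radius of the support -/
theorem exists_R {u : E n → ℝ} (hc : HasCompactSupport u) :
    ∃ R : ℝ, 0 < R ∧ ∀ x, R < ‖x‖ → u x = 0 := by
  obtain ⟨R, hR⟩ := hc.isCompact.isBounded.subset_closedBall (0 : E n)
  refine ⟨max R 1, lt_of_lt_of_le one_pos (le_max_right _ _), fun x hx => ?_⟩
  by_contra h
  have h1 : x ∈ tsupport u := subset_tsupport _ h
  have h2 := hR h1
  rw [mem_closedBall_zero_iff] at h2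
  have := le_max_left R 1
  linarith

theorem ray_zero {u : E n → ℝ} {R : ℝ} (hR : ∀ x, R < ‖x‖ → u x = 0) (r : ℝ) (θ : Sph n)
    (h : R < |r|) : u (r • (θ : E n)) = 0 := by
  apply hR
  rw [norm_smul, sph_norm, mul_one, Real.norm_eq_abs]
  exact h

theorem sm_zero {u : E n → ℝ} {R : ℝ} (hR : ∀ x, R < ‖x‖ → u x = 0) (r : ℝ)
    (h : R < |r|) : sm u r = 0 := by
  unfold sm
  have : ∀ θ : Sph n, u (r • (θ : E n)) = 0 := fun θ => ray_zero hR r θ h
  simp [this]

theorem sm_compact {u : E n → ℝ} (hc : HasCompactSupport u) : HasCompactSupport (sm u) := by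
  obtain ⟨R, hR0, hR⟩ := exists_R hc
  refine HasCompactSupport.intro (K := Icc (-R) R) isCompact_Icc ?_
  intro r hr
  apply sm_zero hR
  simp only [mem_Icc, not_and_or, not_le] at hr
  rcases hr with h1 | h1
  · have := neg_le_abs r
    linarith
  · exact lt_of_lt_of_le h1 (le_abs_self r)

theorem sm_at_zero (hn : 1 ≤ n) (u : E n → ℝ) : sm u 0 = u 0 := by
  unfold sm
  have := tot_pos hn
  simp only [zero_smul, integral_const, smul_eq_mul]
  change tot n * u 0 / tot n = u 0
  field_simp

end

end Pool.Agent.R662.WH
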