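import Pool.Agent.R662.WH.LB1

set_option autoImplicit false

open MeasureTheory Set Filter Topology
open scoped ContDiff

namespace Pool.Agent.R662.WH

noncomputable section

open Pool.Agent.R256.HW (E wt A B Adm best)

variable {n : ℕ}

theorem sq_mean (hn : 1 ≤ n) {φ : Sph n → ℝ} (hφ : Continuous φ) (c : ℝ)
    (hc : c = (∫ θ, φ θ ∂(sig n)) / tot n) :
    ∫ θ, φ θ ^ 2 ∂(sig n) = (∫ θ, (φ θ - c) ^ 2 ∂(sig n)) + tot n * c ^ 2 := by
  have ht := tot_pos hn
  have h1 : ∫ θ, (φ θ - c) ^ 2 ∂(sig n) =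
      (∫ θ, φ θ ^ 2 ∂(sig n)) - 2 * c * (∫ θ, φ θ ∂(sig n)) + tot n * c ^ 2 := by
    have e : ∀ θ, (φ θ - c) ^ 2 = φ θ ^ 2 - 2 * c * φ θ + c ^ 2 := fun θ => by ring
    simp_rw [e]
    rw [integral_add, integral_sub, integral_const_mul]
    · simp only [integral_const, smul_eq_mul]
      rfl
    · exact cont_int (hφ.pow 2)
    · exact cont_int (hφ.const_mul _)
    · exact cont_int ((hφ.pow 2).sub (hφ.const_mul _))
    · exact integrable_const _
  have h2 : ∫ θ, φ θ ∂(sig n) = c * tot n := by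
    rw [hc]; field_simp
  rw [h1, h2]; ring

theorem sphere_r (h3 : S_L3) (hn : 3 ≤ n) {u : E n → ℝ} (hu : ContDiff ℝ ∞ u) {r : ℝ} :
    ((n : ℝ) - 1) * (∫ θ : Sph n, (u (r • (θ : E n)) - sm u r) ^ 2 ∂(sig n)) ≤
      r ^ 2 * ((∫ θ : Sph n, ‖fderiv ℝ u (r • (θ : E n))‖ ^ 2 ∂(sig n)) -
        ∫ θ : Sph n, (fderiv ℝ u (r • (θ : E n)) (θ : E n)) ^ 2 ∂(sig n)) := by
  have hu1 : ContDiff ℝ 1 u := hu.of_le (by exact_mod_cast le_top)
  have hd : Continuous (fderiv ℝ u) := hu1.continuous_fderiv (by norm_num)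
  have hg : ContDiff ℝ ∞ fun x : E n => u (r • x) := hu.comp (contDiff_const_smul r)
  have hfd : ∀ x : E n, fderiv ℝ (fun x : E n => u (r • x)) x = r • fderiv ℝ u (r • x) := by
    intro x
    have h1 : HasFDerivAt (fun x : E n => r • x) (r • ContinuousLinearMap.id ℝ (E n)) x :=
      (r • ContinuousLinearMap.id ℝ (E n)).hasFDerivAt
    have h2 := (((hu1.differentiable (by norm_num)) (r • x)).hasFDerivAt).comp x h1
    have h4 := h2.fderiv
    change fderiv ℝ (fun x : E n => u (r • x)) x = _ at h4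
    rw [h4]
    ext v
    simp
  have h := h3 n hn (fun x => u (r • x)) hg
  simp_rw [hfd] at h
  have hray : Continuous fun θ : Sph n => r • (θ : E n) :=
    continuous_subtype_val.const_smul r
  have c1 : Continuous fun θ : Sph n => u (r • (θ : E n)) := hu1.continuous.comp hray
  have hm := sq_mean (n := n) (by omega) c1 (sm u r) rfl
  have hP : (∫ θ : Sph n, u (r • (θ : E n)) ^ 2 ∂(sig n)) -
      (∫ θ : Sph n, u (r • (θ : E n)) ∂(sig n)) ^ 2 / (sig n).real univ =
      ∫ θ : Sph n, (u (r • (θ : E n)) - sm u r) ^ 2 ∂(sig n) := by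
    have ht := tot_pos (n := n) (by omega)
    have e : tot n * sm u r ^ 2 =
        (∫ θ : Sph n, u (r • (θ : E n)) ∂(sig n)) ^ 2 / (sig n).real univ := by
      change tot n * sm u r ^ 2 = _ / tot n
      unfold sm
      generalize (∫ θ : Sph n, u (r • (θ : E n)) ∂(sig n)) = I
      field_simp
    rw [hm, ← e]; ring
  rw [hP] at h
  have hR : ∫ θ : Sph n, (‖r • fderiv ℝ u (r • (θ : E n))‖ ^ 2 -
        ((r • fderiv ℝ u (r • (θ : E n))) (θ : E n)) ^ 2) ∂(sig n) =
      r ^ 2 * ((∫ θ : Sph n, ‖fderiv ℝ u (r • (θ : E n))‖ ^ 2 ∂(sig n)) -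
        ∫ θ : Sph n, (fderiv ℝ u (r • (θ : E n)) (θ : E n)) ^ 2 ∂(sig n)) := by
    rw [← integral_sub, ← integral_const_mul]
    · refine integral_congr_ae (Eventually.of_forall fun θ => ?_)
      simp only [norm_smul, Real.norm_eq_abs, mul_pow, sq_abs, ContinuousLinearMap.smul_apply,
        smul_eq_mul]
      ring
    · exact cont_int ((hd.comp hray).norm.pow 2)
    · exact cont_int (((hd.comp hray).clm_apply continuous_subtype_val).pow 2)
  rw [hR] at h
  exact h

theorem wt_ray (γ r : ℝ) (θ : Sph n) : wt γ (r • (θ : E n)) = w1 γ r := by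
  unfold wt w1
  rw [norm_smul, sph_norm, mul_one, Real.norm_eq_abs, sq_abs]

theorem w1_pos (γ r : ℝ) : 0 < w1 γ r := Real.rpow_pos_of_pos (by positivity) _

theorem w1_cont (γ : ℝ) : Continuous (w1 γ) := by
  unfold w1
  exact Continuous.rpow_const (by fun_prop) fun r => Or.inl (by positivity)

end

end Pool.Agent.R662.WH
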