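import Pool.Agent.R662.WH.LB2

set_option autoImplicit false

open MeasureTheory Set Filter Topology
open scoped ContDiff

namespace Pool.Agent.R662.WH

noncomputable section

open Pool.Agent.R256.HW (E wt A B Adm best)

variable {n : ℕ}

/-- the deviation from the spherical mean along a ray -/
def hh (u : E n → ℝ) (r : ℝ) (θ : Sph n) : ℝ := u (r • (θ : E n)) - sm u r

/-- its derivative -/
def hd (u : E n → ℝ) (r : ℝ) (θ : Sph n) : ℝ := fderiv ℝ u (r • (θ : E n)) (θ : E n) - sd u r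

theorem cont_hh {u : E n → ℝ} (hu : ContDiff ℝ 1 u) (hc : HasCompactSupport u) :
    Continuous (Function.uncurry (hh u)) :=
  (cont_u hu.continuous).sub ((sm_contDiff hu hc).continuous.comp continuous_fst)

theorem cont_hd {u : E n → ℝ} (hu : ContDiff ℝ 1 u) : Continuous (Function.uncurry (hd u)) :=
  (cont_d hu).sub ((cont_sd hu).comp continuous_fst)

theorem fderiv_zero {u : E n → ℝ} {R : ℝ} (hR : ∀ x, R < ‖x‖ → u x = 0) {x : E n}
    (hx : R < ‖x‖) : fderiv ℝ u x = 0 := by
  have h1 : u =ᶠ[𝓝 x] fun _ => 0 := by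
    filter_upwards [(isOpen_lt continuous_const continuous_norm).mem_nhds hx] with y hy
    exact hR y hy
  rw [h1.fderiv_eq]
  simp

theorem norm_ray (r : ℝ) (θ : Sph n) : ‖r • (θ : E n)‖ = |r| := by
  rw [norm_smul, sph_norm, mul_one, Real.norm_eq_abs]

theorem sd_zero {u : E n → ℝ} {R : ℝ} (hR : ∀ x, R < ‖x‖ → u x = 0) (r : ℝ)
    (h : R < |r|) : sd u r = 0 := by
  unfold sd
  have : ∀ θ : Sph n, fderiv ℝ u (r • (θ : E n)) = 0 := fun θ =>
    fderiv_zero hR (by rw [norm_ray]; exact h)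
  simp [this]

theorem hh_zero {u : E n → ℝ} {R : ℝ} (hR : ∀ x, R < ‖x‖ → u x = 0) (r : ℝ) (θ : Sph n)
    (h : R < |r|) : hh u r θ = 0 := by
  unfold hh
  rw [ray_zero hR r θ h, sm_zero hR r h, sub_zero]

theorem hd_zero {u : E n → ℝ} {R : ℝ} (hR : ∀ x, R < ‖x‖ → u x = 0) (r : ℝ) (θ : Sph n)
    (h : R < |r|) : hd u r θ = 0 := by
  unfold hd
  rw [sd_zero hR r h, fderiv_zero hR (by rw [norm_ray]; exact h)]
  simp

/-- decomposition of the mass -/
theorem B_decomp (hn : 3 ≤ n) (α : ℝ) {u : E n → ℝ} (hu : ContDiff ℝ 1 u)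
    (hc : HasCompactSupport u) :
    B α u = (∫ θ : Sph n, (∫ r in Ioi (0 : ℝ), r ^ (n - 1) * w1 (α - 1) r * hh u r θ ^ 2) ∂(sig n)) +
      tot n * ∫ r in Ioi (0 : ℝ), r ^ (n - 1) * w1 (α - 1) r * sm u r ^ 2 := by
  obtain ⟨R, hR0, hR⟩ := exists_R hc
  have hF : Continuous fun x => wt (α - 1) x * u x ^ 2 :=
    (Pool.Agent.R256.HW.wt_continuous _).mul (hu.continuous.pow 2)
  have hFc : HasCompactSupport fun x => wt (α - 1) x * u x ^ 2 := by
    refine hc.mono ?_
    intro x hx
    rw [Function.mem_support] at hx ⊢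
    intro h0
    apply hx
    rw [h0]; simp
  have h1 := (POL n (by omega) _ hF hFc).1
  unfold B
  rw [h1]
  have cw : Continuous fun r : ℝ => r ^ (n - 1) * w1 (α - 1) r :=
    (continuous_pow _).mul (w1_cont _)
  have c1 : Continuous (Function.uncurry fun (r : ℝ) (θ : Sph n) =>
      r ^ (n - 1) * w1 (α - 1) r * hh u r θ ^ 2) :=
    (cw.comp continuous_fst).mul ((cont_hh hu hc).pow 2)
  have z1 : ∀ (r : ℝ) (θ : Sph n), R < |r| → r ^ (n - 1) * w1 (α - 1) r * hh u r θ ^ 2 = 0 := by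
    intro r θ h
    rw [hh_zero hR r θ h]; simp
  rw [← prod_swap c1 z1, ← integral_const_mul]
  rw [← integral_add (int_left c1 z1)]
  · refine setIntegral_congr_fun measurableSet_Ioi fun r _ => ?_
    simp only [wt_ray]
    rw [integral_const_mul, integral_const_mul]
    have h2 := sq_mean (n := n) (by omega) (φ := fun θ => u (r • (θ : E n)))
      ((cont_u hu.continuous).comp (Continuous.prodMk continuous_const continuous_id)) (sm u r) rfl
    rw [h2]
    unfold hh
    ring
  · refine Integrable.const_mul ?_ _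
    have c2 : Continuous fun r : ℝ => r ^ (n - 1) * w1 (α - 1) r * sm u r ^ 2 :=
      cw.mul ((sm_contDiff hu hc).continuous.pow 2)
    have s2 : HasCompactSupport fun r : ℝ => r ^ (n - 1) * w1 (α - 1) r * sm u r ^ 2 := by
      refine (sm_compact hc).mono ?_
      intro x hx
      rw [Function.mem_support] at hx ⊢
      intro h0
      apply hx
      rw [h0]; simp
    exact (c2.integrable_of_hasCompactSupport s2).integrableOn

/-- the energy is bounded below by the two parts -/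
theorem A_lower (h3 : S_L3) (hn : 3 ≤ n) (α : ℝ) {u : E n → ℝ} (hu : ContDiff ℝ ∞ u)
    (hc : HasCompactSupport u) :
    (∫ θ : Sph n, (∫ r in Ioi (0 : ℝ), r ^ (n - 1) * w1 α r * hd u r θ ^ 2) ∂(sig n)) +
      ((n : ℝ) - 1) *
        (∫ θ : Sph n, (∫ r in Ioi (0 : ℝ), r ^ (n - 3) * w1 α r * hh u r θ ^ 2) ∂(sig n)) +
      tot n * ∫ r in Ioi (0 : ℝ), r ^ (n - 1) * w1 α r * sd u r ^ 2 ≤ A α u := by
  obtain ⟨R, hR0, hR⟩ := exists_R hc
  have hu1 : ContDiff ℝ 1 u := hu.of_le (by exact_mod_cast le_top)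
  have hdc : Continuous (fderiv ℝ u) := hu1.continuous_fderiv (by norm_num)
  have hF : Continuous fun x => wt α x * ‖fderiv ℝ u x‖ ^ 2 :=
    (Pool.Agent.R256.HW.wt_continuous _).mul (hdc.norm.pow 2)
  have hFc : HasCompactSupport fun x => wt α x * ‖fderiv ℝ u x‖ ^ 2 := by
    refine (hc.fderiv ℝ).mono ?_
    intro x hx
    rw [Function.mem_support] at hx ⊢
    intro h0
    apply hx
    rw [h0]; simp
  have h1 := (POL n (by omega) _ hF hFc).1
  unfold A
  rw [h1]
  have cw : ∀ k : ℕ, Continuous fun r : ℝ => r ^ k * w1 α r := fun k =>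
    (continuous_pow _).mul (w1_cont _)
  have c1 : Continuous (Function.uncurry fun (r : ℝ) (θ : Sph n) =>
      r ^ (n - 1) * w1 α r * hd u r θ ^ 2) :=
    ((cw _).comp continuous_fst).mul ((cont_hd hu1).pow 2)
  have z1 : ∀ (r : ℝ) (θ : Sph n), R < |r| → r ^ (n - 1) * w1 α r * hd u r θ ^ 2 = 0 := by
    intro r θ h
    rw [hd_zero hR r θ h]; simp
  have c2 : Continuous (Function.uncurry fun (r : ℝ) (θ : Sph n) =>
      r ^ (n - 3) * w1 α r * hh u r θ ^ 2) :=
    ((cw _).comp continuous_fst).mul ((cont_hh hu1 hc).pow 2)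
  have z2 : ∀ (r : ℝ) (θ : Sph n), R < |r| → r ^ (n - 3) * w1 α r * hh u r θ ^ 2 = 0 := by
    intro r θ h
    rw [hh_zero hR r θ h]; simp
  have i3 : IntegrableOn (fun r : ℝ => tot n * (r ^ (n - 1) * w1 α r * sd u r ^ 2)) (Ioi 0) := by
    refine Integrable.const_mul ?_ _
    have c3 : Continuous fun r : ℝ => r ^ (n - 1) * w1 α r * sd u r ^ 2 :=
      (cw _).mul ((cont_sd hu1).pow 2)
    have s3 : HasCompactSupport fun r : ℝ => r ^ (n - 1) * w1 α r * sd u r ^ 2 := by
      refine HasCompactSupport.intro (K := Icc (-R) R) isCompact_Icc ?_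
      intro r hr
      have h5 : R < |r| := by
        simp only [mem_Icc, not_and_or, not_le] at hr
        rcases hr with h1 | h1
        · have := neg_le_abs r
          linarith
        · exact lt_of_lt_of_le h1 (le_abs_self r)
      rw [sd_zero hR r h5]; simp
    exact (c3.integrable_of_hasCompactSupport s3).integrableOn
  have c4 : Continuous (Function.uncurry fun (r : ℝ) (θ : Sph n) =>
      r ^ (n - 1) * (wt α (r • (θ : E n)) * ‖fderiv ℝ u (r • (θ : E n))‖ ^ 2)) :=
    ((continuous_pow _).comp continuous_fst).mul (hF.comp cont_ray)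
  have z4 : ∀ (r : ℝ) (θ : Sph n), R < |r| →
      r ^ (n - 1) * (wt α (r • (θ : E n)) * ‖fderiv ℝ u (r • (θ : E n))‖ ^ 2) = 0 := by
    intro r θ h
    rw [fderiv_zero hR (by rw [norm_ray]; exact h)]; simp
  have i12 : IntegrableOn (fun r : ℝ => (∫ θ : Sph n, r ^ (n - 1) * w1 α r * hd u r θ ^ 2 ∂(sig n)) +
      ((n : ℝ) - 1) * ∫ θ : Sph n, r ^ (n - 3) * w1 α r * hh u r θ ^ 2 ∂(sig n)) (Ioi 0) :=
    (int_left c1 z1).add ((int_left c2 z2).const_mul _)
  rw [← prod_swap c1 z1, ← prod_swap c2 z2, ← integral_const_mul, ← integral_const_mul,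
    ← integral_add (int_left c1 z1) ((int_left c2 z2).const_mul _),
    ← integral_add i12 i3]
  have i4 : IntegrableOn (fun r : ℝ => r ^ (n - 1) *
      ∫ θ : Sph n, wt α (r • (θ : E n)) * ‖fderiv ℝ u (r • (θ : E n))‖ ^ 2 ∂(sig n)) (Ioi 0) := by
    have := int_left c4 z4
    simp_rw [integral_const_mul] at this
    exact this
  refine setIntegral_mono_on (i12.add i3) i4 measurableSet_Ioi fun r hr => ?_
  have hr0 : (0 : ℝ) < r := hr
  simp only [wt_ray]
  rw [integral_const_mul, integral_const_mul, integral_const_mul]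
  have h4 := sphere_r h3 hn hu (r := r)
  have h5 := sq_mean (n := n) (by omega) (φ := fun θ => fderiv ℝ u (r • (θ : E n)) (θ : E n))
      ((cont_d hu1).comp (Continuous.prodMk continuous_const continuous_id)) (sd u r) rfl
  set NN := ∫ θ : Sph n, ‖fderiv ℝ u (r • (θ : E n))‖ ^ 2 ∂(sig n)
  set DD := ∫ θ : Sph n, (fderiv ℝ u (r • (θ : E n)) (θ : E n)) ^ 2 ∂(sig n)
  change ((n : ℝ) - 1) * (∫ θ : Sph n, hh u r θ ^ 2 ∂(sig n)) ≤ r ^ 2 * (NN - DD) at h4
  change DD = (∫ θ : Sph n, hd u r θ ^ 2 ∂(sig n)) + tot n * sd u r ^ 2 at h5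
  set HH := ∫ θ : Sph n, hh u r θ ^ 2 ∂(sig n)
  set HD := ∫ θ : Sph n, hd u r θ ^ 2 ∂(sig n)
  have e : r ^ (n - 1) = r ^ (n - 3) * r ^ 2 := by
    rw [← pow_add]; congr 1; omega
  have hw := w1_pos α r
  have hp : 0 < r ^ (n - 3) * w1 α r := by positivity
  have h6 := mul_le_mul_of_nonneg_left h4 hp.le
  rw [e]
  have h8 : r ^ (n - 3) * w1 α r * (r ^ 2 * DD) =
      r ^ (n - 3) * w1 α r * (r ^ 2 * (HD + tot n * sd u r ^ 2)) := by rw [h5]
  linarith [h6, h8]

theorem LB (h1 : S_L1) (h2 : S_L2) (h3 : S_L3) : S_LB := by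
  intro n α hn hα u hu hc hmean
  obtain ⟨R, hR0, hR⟩ := exists_R hc
  have hu1 : ContDiff ℝ 1 u := hu.of_le (by exact_mod_cast le_top)
  have ht := tot_pos (n := n) (by omega)
  have hn' : (3 : ℝ) ≤ n := by exact_mod_cast hn
  have hA := A_lower h3 hn α hu hc
  have hB := B_decomp hn α hu1 hc
  -- the radial part
  have hmean' : ∫ r in Ioi (0 : ℝ), r ^ (n - 1) * w1 (α - 1) r * sm u r = 0 := by
    have hF : Continuous fun x => wt (α - 1) x * u x :=
      (Pool.Agent.R256.HW.wt_continuous _).mul hu1.continuous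
    have hFc : HasCompactSupport fun x => wt (α - 1) x * u x := hc.mul_left
    have h4 := (POL n (by omega) _ hF hFc).1
    rw [hmean] at h4
    have h5 : ∫ r in Ioi (0 : ℝ), r ^ (n - 1) *
        ∫ θ : Sph n, wt (α - 1) (r • (θ : E n)) * u (r • (θ : E n)) ∂(sig n) =
        tot n * ∫ r in Ioi (0 : ℝ), r ^ (n - 1) * w1 (α - 1) r * sm u r := by
      rw [← integral_const_mul]
      refine setIntegral_congr_fun measurableSet_Ioi fun r _ => ?_
      simp only [wt_ray]
      rw [integral_const_mul]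
      unfold sm
      field_simp
    rw [h5] at h4
    rcases mul_eq_zero.1 h4.symm with h6 | h6
    · exact absurd h6 ht.ne'
    · exact h6
  have hr := h2 n α hn hα (sm u) (sm_contDiff hu1 hc) (sm_compact hc) hmean'
  rw [deriv_sm hu1 hc] at hr
  -- the other part
  have cw : ∀ (k : ℕ) (γ : ℝ), Continuous fun r : ℝ => r ^ k * w1 γ r := fun k γ =>
    (continuous_pow _).mul (w1_cont _)
  have c1 : Continuous (Function.uncurry fun (r : ℝ) (θ : Sph n) =>
      r ^ (n - 1) * w1 α r * hd u r θ ^ 2) :=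
    ((cw _ _).comp continuous_fst).mul ((cont_hd hu1).pow 2)
  have z1 : ∀ (r : ℝ) (θ : Sph n), R < |r| → r ^ (n - 1) * w1 α r * hd u r θ ^ 2 = 0 := by
    intro r θ h
    rw [hd_zero hR r θ h]; simp
  have c2 : Continuous (Function.uncurry fun (r : ℝ) (θ : Sph n) =>
      r ^ (n - 3) * w1 α r * hh u r θ ^ 2) :=
    ((cw _ _).comp continuous_fst).mul ((cont_hh hu1 hc).pow 2)
  have z2 : ∀ (r : ℝ) (θ : Sph n), R < |r| → r ^ (n - 3) * w1 α r * hh u r θ ^ 2 = 0 := by
    intro r θ h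
    rw [hh_zero hR r θ h]; simp
  have c3 : Continuous (Function.uncurry fun (r : ℝ) (θ : Sph n) =>
      r ^ (n - 1) * w1 (α - 1) r * hh u r θ ^ 2) :=
    ((cw _ _).comp continuous_fst).mul ((cont_hh hu1 hc).pow 2)
  have z3 : ∀ (r : ℝ) (θ : Sph n), R < |r| → r ^ (n - 1) * w1 (α - 1) r * hh u r θ ^ 2 = 0 := by
    intro r θ h
    rw [hh_zero hR r θ h]; simp
  have hs : -2 * α * (∫ θ : Sph n,
        (∫ r in Ioi (0 : ℝ), r ^ (n - 1) * w1 (α - 1) r * hh u r θ ^ 2) ∂(sig n)) ≤
      (∫ θ : Sph n, (∫ r in Ioi (0 : ℝ), r ^ (n - 1) * w1 α r * hd u r θ ^ 2) ∂(sig n)) +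
      ((n : ℝ) - 1) *
        (∫ θ : Sph n, (∫ r in Ioi (0 : ℝ), r ^ (n - 3) * w1 α r * hh u r θ ^ 2) ∂(sig n)) := by
    rw [← integral_const_mul, ← integral_const_mul,
      ← integral_add (int_right c1 z1) ((int_right c2 z2).const_mul _)]
    refine integral_mono ((int_right c3 z3).const_mul _)
      ((int_right c1 z1).add ((int_right c2 z2).const_mul _)) fun θ => ?_
    have hder : ∀ r, HasDerivAt (fun r => hh u r θ) (hd u r θ) r := fun r =>
      (ray_deriv hu1 _ r).sub (hasDerivAt_sm hu1 hc r)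
    have hdd : deriv (fun r => hh u r θ) = fun r => hd u r θ := funext fun r => (hder r).deriv
    have hC : ContDiff ℝ 1 fun r => hh u r θ := by
      rw [contDiff_one_iff_deriv]
      refine ⟨fun r => (hder r).differentiableAt, ?_⟩
      rw [hdd]
      exact (cont_hd hu1).comp (Continuous.prodMk continuous_id continuous_const)
    have hK : HasCompactSupport fun r => hh u r θ := by
      refine HasCompactSupport.intro (K := Icc (-R) R) isCompact_Icc ?_
      intro r hr
      apply hh_zero hR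
      simp only [mem_Icc, not_and_or, not_le] at hr
      rcases hr with h1 | h1
      · have := neg_le_abs r
        linarith
      · exact lt_of_lt_of_le h1 (le_abs_self r)
    have h0 : hh u 0 θ = 0 := by
      unfold hh
      rw [sm_at_zero (by omega)]; simp
    have h4 := h1 n α hn (fun r => hh u r θ) hC hK h0
    rw [hdd] at h4
    exact h4
  have hBn : 0 ≤ ∫ θ : Sph n,
      (∫ r in Ioi (0 : ℝ), r ^ (n - 1) * w1 (α - 1) r * hh u r θ ^ 2) ∂(sig n) := by
    refine integral_nonneg fun θ => setIntegral_nonneg measurableSet_Ioi fun r hr => ?_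
    have hr0 : (0 : ℝ) < r := hr
    have := w1_pos (α - 1) r
    positivity
  have hBr : 0 ≤ ∫ r in Ioi (0 : ℝ), r ^ (n - 1) * w1 (α - 1) r * sm u r ^ 2 := by
    refine setIntegral_nonneg measurableSet_Ioi fun r hr => ?_
    have hr0 : (0 : ℝ) < r := hr
    have := w1_pos (α - 1) r
    positivity
  have hC1 : Cneg n α ≤ -2 * α := by
    unfold Cneg
    split_ifs with ha hb
    · nlinarith
    · linarith
    · exact le_refl _
  have hC2 : Cneg n α ≤ Lam n α := by
    unfold Cneg Lam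
    split_ifs with ha hb
    · exact le_refl _
    · exact le_refl _
    · linarith
  rw [hB]
  have g1 := mul_le_mul_of_nonneg_right hC1 hBn
  have g2 := mul_le_mul_of_nonneg_right hC2 hBr
  have g3 := mul_le_mul_of_nonneg_left (g2.trans hr) ht.le
  nlinarith

end

end Pool.Agent.R662.WH
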