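import Pool.Agent.R662.WH.Stm

set_option autoImplicit false

open MeasureTheory Set Filter Topology
open scoped ContDiff

namespace Pool.Agent.R662.WH

noncomputable section

open Pool.Agent.R256.HW (E wt A B Adm best)

variable {n : ℕ}

instance : IsFiniteMeasure (sig n) := by unfold sig; infer_instance

theorem vol_ioi (k : ℕ) (f : ℝ → ℝ) :
    ∫ r : Ioi (0 : ℝ), f r ∂(Measure.volumeIoiPow k) = ∫ r in Ioi (0 : ℝ), r ^ k * f r := by
  simp only [Measure.volumeIoiPow, ENNReal.ofReal]
  rw [integral_withDensity_eq_integral_smul,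
    integral_subtype_comap measurableSet_Ioi fun a ↦ Real.toNNReal (a ^ k) • f a,
    setIntegral_congr_fun measurableSet_Ioi fun x hx ↦ ?_]
  · rw [NNReal.smul_def, Real.coe_toNNReal _ (pow_nonneg hx.out.le _), smul_eq_mul]
  · exact (measurable_subtype_coe.pow_const _).real_toNNReal

theorem polar_int (hn : 1 ≤ n) {F : E n → ℝ} (hF : Integrable F) :
    Integrable (fun p : Sph n × Ioi (0 : ℝ) => F ((p.2 : ℝ) • (p.1 : E n)))
      ((sig n).prod (Measure.volumeIoiPow (n - 1))) ∧
    ∫ x, F x = ∫ p : Sph n × Ioi (0 : ℝ), F ((p.2 : ℝ) • (p.1 : E n))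
      ∂((sig n).prod (Measure.volumeIoiPow (n - 1))) := by
  haveI : Nonempty (Fin n) := ⟨⟨0, hn⟩⟩
  haveI : Nontrivial (E n) := inferInstance
  have hmp := (volume : Measure (E n)).measurePreserving_homeomorphUnitSphereProd
  have hdim : Module.finrank ℝ (E n) = n := by simp
  rw [hdim] at hmp
  have hsymm : ∀ x : ({(0 : E n)}ᶜ : Set (E n)),
      (((homeomorphUnitSphereProd (E n) x).2 : ℝ) • ((homeomorphUnitSphereProd (E n) x).1 : E n)) =
        (x : E n) := by
    intro x
    have h := (homeomorphUnitSphereProd (E n)).symm_apply_apply x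
    have h2 := congrArg Subtype.val h
    rw [homeomorphUnitSphereProd_symm_apply_coe] at h2
    exact h2
  have h0 : ∫ x, F x = ∫ x : ({(0 : E n)}ᶜ : Set (E n)), F x.1
      ∂((volume : Measure (E n)).comap (↑)) := by
    rw [integral_subtype_comap (measurableSet_singleton _).compl F, restrict_compl_singleton]
  have hI0 : Integrable (fun x : ({(0 : E n)}ᶜ : Set (E n)) => F x.1)
      ((volume : Measure (E n)).comap (↑)) := by
    have h1 := (MeasurableEmbedding.subtype_coe
      (measurableSet_singleton (0 : E n)).compl).integrable_map_iff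
      (μ := (volume : Measure (E n)).comap (↑)) (g := F)
    rw [map_comap_subtype_coe (measurableSet_singleton (0 : E n)).compl] at h1
    exact h1.1 hF.integrableOn
  constructor
  · have h2 := hmp.integrable_comp_emb (homeomorphUnitSphereProd (E n)).measurableEmbedding
      (g := fun p : Sph n × Ioi (0 : ℝ) => F ((p.2 : ℝ) • (p.1 : E n)))
    refine h2.1 ?_
    refine hI0.congr (Eventually.of_forall fun x => ?_)
    simp only [Function.comp_def]
    rw [hsymm]
  · rw [h0]
    have h2 := hmp.integral_comp (homeomorphUnitSphereProd (E n)).measurableEmbedding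
      (fun p : Sph n × Ioi (0 : ℝ) => F ((p.2 : ℝ) • (p.1 : E n)))
    rw [← sig] at h2
    rw [← h2]
    refine integral_congr_ae (Eventually.of_forall fun x => ?_)
    simp only
    rw [hsymm]

theorem POL : S_POL := by
  intro n hn F hF hc
  obtain ⟨h1, h2⟩ := polar_int hn (hF.integrable_of_hasCompactSupport hc)
  constructor
  · rw [h2, integral_prod_symm _ h1]
    exact vol_ioi (n - 1) (fun r => ∫ θ : Sph n, F (r • (θ : E n)) ∂(sig n))
  · rw [h2, integral_prod _ h1]
    refine integral_congr_ae (Eventually.of_forall fun θ => ?_)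
    exact vol_ioi (n - 1) (fun r => F (r • (θ : E n)))

end

end Pool.Agent.R662.WH
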