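import Pool.Agent.R256.HW2

/-!
# MP_5b99fd_an, the range `α < -(n - 2)/2`: interface statements

`E n`, `wt`, `A`, `B`, `Adm`, `best` are from `Pool.Agent.R256.HW1`, `Pool.Agent.R256.HW2`.
-/

set_option autoImplicit false

open MeasureTheory Set Filter Topology
open scoped ContDiff

namespace Pool.Agent.R662.WH

noncomputable section

open Pool.Agent.R256.HW (E wt A B Adm best)

/-- the weight on the half line -/
def w1 (γ r : ℝ) : ℝ := (1 + r ^ 2) ^ γ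

/-- the unit sphere -/
abbrev Sph (n : ℕ) := Metric.sphere (0 : E n) 1

/-- the surface measure of the unit sphere -/
def sig (n : ℕ) : Measure (Sph n) := (volume : Measure (E n)).toSphere

/-- the radial constant -/
def Lam (n : ℕ) (α : ℝ) : ℝ :=
  if -((n : ℝ) + 2) / 2 ≤ α then ((n : ℝ) - 2 + 2 * α) ^ 2 / 4 else -4 * α - 2 * n

/-- the constant for `α < -(n - 2)/2` -/
def Cneg (n : ℕ) (α : ℝ) : ℝ :=
  if -((n : ℝ) + 2) / 2 ≤ α then ((n : ℝ) - 2 + 2 * α) ^ 2 / 4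
  else if -(n : ℝ) ≤ α then -4 * α - 2 * n else -2 * α

/-- polar coordinates (done by helper662) -/
def S_POL : Prop := ∀ n : ℕ, 1 ≤ n → ∀ F : E n → ℝ, Continuous F → HasCompactSupport F →
  (∫ x, F x = ∫ r in Ioi (0 : ℝ), r ^ (n - 1) * ∫ θ : Sph n, F (r • (θ : E n)) ∂(sig n)) ∧
  (∫ x, F x = ∫ θ : Sph n, (∫ r in Ioi (0 : ℝ), r ^ (n - 1) * F (r • (θ : E n))) ∂(sig n))

/-- L1: one dimensional inequality for functions vanishing at `0` -/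
def S_L1 : Prop := ∀ (n : ℕ) (α : ℝ), 3 ≤ n → ∀ h : ℝ → ℝ, ContDiff ℝ 1 h → HasCompactSupport h →
  h 0 = 0 →
  -2 * α * ∫ r in Ioi (0 : ℝ), r ^ (n - 1) * w1 (α - 1) r * h r ^ 2 ≤
    (∫ r in Ioi (0 : ℝ), r ^ (n - 1) * w1 α r * deriv h r ^ 2) +
      ((n : ℝ) - 1) * ∫ r in Ioi (0 : ℝ), r ^ (n - 3) * w1 α r * h r ^ 2

/-- L2: one dimensional spectral gap (radial part) -/
def S_L2 : Prop := ∀ (n : ℕ) (α : ℝ), 3 ≤ n → α < -((n : ℝ) - 2) / 2 → ∀ f : ℝ → ℝ,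
  ContDiff ℝ 1 f → HasCompactSupport f →
  ∫ r in Ioi (0 : ℝ), r ^ (n - 1) * w1 (α - 1) r * f r = 0 →
  Lam n α * ∫ r in Ioi (0 : ℝ), r ^ (n - 1) * w1 (α - 1) r * f r ^ 2 ≤
    ∫ r in Ioi (0 : ℝ), r ^ (n - 1) * w1 α r * deriv f r ^ 2

/-- L3: the Poincare inequality of the sphere with the sharp constant -/
def S_L3 : Prop := ∀ n : ℕ, 3 ≤ n → ∀ g : E n → ℝ, ContDiff ℝ ∞ g →
  ((n : ℝ) - 1) * ((∫ θ : Sph n, g (θ : E n) ^ 2 ∂(sig n)) -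
      (∫ θ : Sph n, g (θ : E n) ∂(sig n)) ^ 2 / (sig n).real univ) ≤
    ∫ θ : Sph n, (‖fderiv ℝ g (θ : E n)‖ ^ 2 - (fderiv ℝ g (θ : E n) (θ : E n)) ^ 2) ∂(sig n)

/-- UP: general principle for upper bounds -/
def S_UP : Prop := ∀ (n : ℕ) (α : ℝ) (φ : E n → ℝ), 3 ≤ n → α < -((n : ℝ) - 2) / 2 →
  ContDiff ℝ ∞ φ → Integrable (fun x => wt α x * ‖fderiv ℝ φ x‖ ^ 2) →
  Integrable (fun x => wt (α - 1) x * φ x ^ 2) → ∫ x, wt (α - 1) x * φ x = 0 → 0 < B α φ →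
  best n α ≤ A α φ / B α φ

/-- U1: test function `x_1` -/
def S_U1 : Prop := ∀ (n : ℕ) (α : ℝ), 3 ≤ n → α < -(n : ℝ) → best n α ≤ -2 * α

/-- U2: test function `|x|^2 + n/(n + 2α)` -/
def S_U2 : Prop := ∀ (n : ℕ) (α : ℝ), 3 ≤ n → α < -((n : ℝ) + 2) / 2 →
  best n α ≤ -4 * α - 2 * n

/-- U3: test functions `(1 + |x|^2)^(-b) - mean` -/
def S_U3 : Prop := ∀ (n : ℕ) (α : ℝ), 3 ≤ n → α < -((n : ℝ) - 2) / 2 →
  best n α ≤ ((n : ℝ) - 2 + 2 * α) ^ 2 / 4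

/-- LB: the lower bound (helper662) -/
def S_LB : Prop := ∀ (n : ℕ) (α : ℝ), 3 ≤ n → α < -((n : ℝ) - 2) / 2 → ∀ u : E n → ℝ,
  ContDiff ℝ ∞ u → HasCompactSupport u → ∫ x, wt (α - 1) x * u x = 0 →
  Cneg n α * B α u ≤ A α u

end

end Pool.Agent.R662.WH
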